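import Mathlib

/-!
# Bosons on a finite weighted graph: definitions

`V` is a finite set, `T x y` the weight of the edge `x y`.  A wave function of `N` particles is a
function of `N`-tuples of points.
-/

set_option autoImplicit false

namespace Pool.Agent.U240.BG

open Finset Function
open scoped ENNReal ComplexConjugate

variable {V : Type} [Fintype V] [DecidableEq V] {N : ℕ}

/-- The wave functions of `N` particles on `V`. -/
abbrev WF (V : Type) (N : ℕ) : Type := (Fin N → V) → ℂ

/-- `Ψ` is symmetric (bosonic). -/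
def IsSymm (Ψ : WF V N) : Prop := ∀ (σ : Equiv.Perm (Fin N)) (X : Fin N → V), Ψ (X ∘ σ) = Ψ X

/-- The squared norm. -/
noncomputable def normSq (Ψ : WF V N) : ℝ := ∑ X, ‖Ψ X‖ ^ 2

/-- The inner product. -/
noncomputable def inner (Ψ Φ : WF V N) : ℂ := ∑ X, conj (Ψ X) * Φ X

/-- The kinetic energy: the sum over the particles `i` of
`(1 / 2) ∑_{x, y} T x y |Ψ(.., x, ..) - Ψ(.., y, ..)|²`, i.e. the expectation of the sum of the
graph Laplacians `-Δ_i`, `(-Δ f) x = ∑_y T x y (f x - f y)`. -/
noncomputable def kinetic (T : V → V → ℝ) (Ψ : WF V N) : ℝ :=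
  1 / 2 * ∑ i, ∑ X : Fin N → V, ∑ y, T (X i) y * ‖Ψ (update X i y) - Ψ X‖ ^ 2

/-- The potential energy `∑_X ∑_{i < j} v (X i) (X j) |Ψ X|²`, with `∞ * 0 = 0`. -/
noncomputable def potential (v : V → V → ℝ≥0∞) (Ψ : WF V N) : ℝ≥0∞ :=
  ∑ X : Fin N → V, (∑ i, ∑ j ∈ univ.filter (fun j => i < j), v (X i) (X j)) *
    ENNReal.ofReal (‖Ψ X‖ ^ 2)

/-- The energy. -/
noncomputable def energy (T : V → V → ℝ) (v : V → V → ℝ≥0∞) (Ψ : WF V N) : ℝ≥0∞ :=
  ENNReal.ofReal (kinetic T Ψ) + potential v Ψ

/-- The one-body density matrix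
`γ(x, y) = ∑_i ∑_{X, X i = x} Ψ(.., x, ..) conj (Ψ(.., y, ..))`
(for symmetric `Ψ` all the `N` summands are equal). -/
noncomputable def gamma (Ψ : WF V N) (x y : V) : ℂ :=
  ∑ i, ∑ X ∈ univ.filter (fun X : Fin N → V => X i = x), Ψ X * conj (Ψ (update X i y))

/-- The number of particles in the condensate, `|V|⁻¹ ∑_{x, y} γ(x, y)`: the expectation of `γ` in
the normalised constant function. -/
noncomputable def condensate (Ψ : WF V N) : ℝ :=
  (∑ x, ∑ y, (gamma Ψ x y).re) / Fintype.card V

/-- The Laplacian of the weighted graph has the spectral gap `g`. -/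
def Gap (T : V → V → ℝ) (g : ℝ) : Prop :=
  ∀ f : V → ℝ, g * (∑ x, f x ^ 2 - (∑ x, f x) ^ 2 / Fintype.card V) ≤
    1 / 2 * ∑ x, ∑ y, T x y * (f x - f y) ^ 2

/-- The weights are nonnegative and symmetric, the weighted degrees are at most `τ`, and there is the
spectral gap `g`. -/
structure Graph (T : V → V → ℝ) (τ g : ℝ) : Prop where
  nonneg : ∀ x y, 0 ≤ T x y
  symm : ∀ x y, T x y = T y x
  deg : ∀ x, ∑ y, T x y ≤ τ
  gap : Gap T g

/-- The pair interaction is symmetric, it excludes at most `b` points, and the sum of the finite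
values is at most `w`. -/
structure Interaction (v : V → V → ℝ≥0∞) (b : ℕ) (w : ℝ) : Prop where
  symm : ∀ x y, v x y = v y x
  excl : ∀ x, (univ.filter (fun y => v x y = ⊤)).card ≤ b
  fin : ∀ x, ∑ y ∈ univ.filter (fun y => v x y ≠ ⊤), (v x y).toReal ≤ w

/-- A mixed state: symmetric orthonormal wave functions `ψ k` with probabilities `p k`. -/
structure Mixed (V : Type) [Fintype V] (N : ℕ) where
  /-- the number of the wave functions -/
  K : ℕ
  /-- the probabilities -/
  p : Fin K → ℝ
  /-- the wave functions -/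
  ψ : Fin K → WF V N
  nonneg : ∀ k, 0 ≤ p k
  sum : ∑ k, p k = 1
  symm : ∀ k, IsSymm (ψ k)
  orth : ∀ k l, inner (ψ k) (ψ l) = if k = l then 1 else 0

/-- The energy of a mixed state. -/
noncomputable def Mixed.energy (D : Mixed V N) (T : V → V → ℝ) (v : V → V → ℝ≥0∞) : ℝ≥0∞ :=
  ∑ k, ENNReal.ofReal (D.p k) * BG.energy T v (D.ψ k)

/-- The entropy `- ∑ p log p` of a mixed state. -/
noncomputable def Mixed.entropy (D : Mixed V N) : ℝ := ∑ k, Real.negMulLog (D.p k)

/-- The number of particles in the condensate. -/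
noncomputable def Mixed.condensate (D : Mixed V N) : ℝ := ∑ k, D.p k * BG.condensate (D.ψ k)

/-- `D` minimises the free energy (energy minus `θ` times entropy) at the temperature `θ ≥ 0` up to
`δ`, among all mixed states: `E(D) + θ S(D') ≤ E(D') + θ S(D) + δ` for all `D'`. For `δ = 0` this is
the Gibbs variational principle. -/
def NearEquilibrium (T : V → V → ℝ) (v : V → V → ℝ≥0∞) (θ δ : ℝ) (D : Mixed V N) : Prop :=
  ∀ D' : Mixed V N, D.energy T v + ENNReal.ofReal (θ * D'.entropy) ≤
    D'.energy T v + ENNReal.ofReal (θ * D.entropy + δ)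

end Pool.Agent.U240.BG
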