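import Pool.Agent.U240.BG.Defs

/-!
# The dimension of the symmetric wave functions and the entropy
-/

set_option autoImplicit false
set_option linter.unusedSectionVars false

namespace Pool.Agent.U240.BG

open Finset Function
open scoped ENNReal ComplexConjugate

variable {V : Type} [Fintype V] [DecidableEq V] {N : ℕ}

/-- the multiset of the positions -/
def msym (X : Fin N → V) : Sym V N := ⟨Multiset.map X univ.val, by simp⟩

theorem perm_of_msym {X Y : Fin N → V} (h : msym X = msym Y) :
    ∃ σ : Equiv.Perm (Fin N), X = Y ∘ σ := by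
  have h1 : Multiset.map X univ.val = Multiset.map Y univ.val := congrArg Subtype.val h
  have h2 : ∀ c : V, Fintype.card {i // X i = c} = Fintype.card {i // Y i = c} := by
    intro c
    have h3 := congrArg (Multiset.count c) h1
    rw [Multiset.count_map, Multiset.count_map] at h3
    rw [Fintype.card_subtype, Fintype.card_subtype, card_def, card_def, filter_val, filter_val]
    simpa only [eq_comm] using h3
  have e : ∀ c : V, {i // X i = c} ≃ {i // Y i = c} := fun c => Fintype.equivOfCardEq (h2 c)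
  refine ⟨Equiv.ofFiberEquiv e, ?_⟩
  funext i
  exact (Equiv.ofFiberEquiv_map e i).symm

/-- the linear map to the functions of multisets -/
noncomputable def toSym (V : Type) [Fintype V] [DecidableEq V] (N : ℕ) :
    WF V N →ₗ[ℂ] (Sym V N → ℂ) where
  toFun Ψ s := by
    classical exact if h : ∃ X : Fin N → V, msym X = s then Ψ h.choose else 0
  map_add' Ψ Φ := by
    funext s
    by_cases h : ∃ X : Fin N → V, msym X = s
    · simp [h]
    · simp [h]
  map_smul' c Ψ := by
    funext s
    by_cases h : ∃ X : Fin N → V, msym X = s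
    · simp [h]
    · simp [h]

theorem toSym_apply {Ψ : WF V N} (hΨ : IsSymm Ψ) (X : Fin N → V) :
    toSym V N Ψ (msym X) = Ψ X := by
  have h : ∃ Y : Fin N → V, msym Y = msym X := ⟨X, rfl⟩
  have h1 : toSym V N Ψ (msym X) = Ψ h.choose := by
    change (if h : ∃ Y : Fin N → V, msym Y = msym X then Ψ h.choose else 0) = _
    rw [dif_pos h]
  rw [h1]
  obtain ⟨σ, hσ⟩ := perm_of_msym h.choose_spec
  rw [hσ, hΨ σ X]

theorem symm_sum {K : ℕ} (ψ : Fin K → WF V N) (h : ∀ k, IsSymm (ψ k)) (c : Fin K → ℂ) :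
    IsSymm (∑ k, c k • ψ k) := by
  intro σ X
  rw [Finset.sum_apply, Finset.sum_apply]
  refine sum_congr rfl fun k _ => ?_
  rw [Pi.smul_apply, Pi.smul_apply, h k σ X]

theorem card_le (D : Mixed V N) : D.K ≤ (Fintype.card V + N - 1).choose N := by
  have h : LinearIndependent ℂ (fun k => toSym V N (D.ψ k)) := by
    rw [Fintype.linearIndependent_iff]
    intro c hc k
    have h1 : toSym V N (∑ k, c k • D.ψ k) = 0 := by
      rw [map_sum]
      simpa only [map_smul] using hc
    have h2 : (∑ k, c k • D.ψ k) = 0 := by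
      funext X
      rw [← toSym_apply (symm_sum D.ψ D.symm c) X, h1]
      rfl
    have h3 : inner (D.ψ k) (∑ k, c k • D.ψ k) = c k := by
      unfold inner
      simp only [Finset.sum_apply, Pi.smul_apply, smul_eq_mul, mul_sum]
      rw [sum_comm]
      calc ∑ l, ∑ X, conj (D.ψ k X) * (c l * D.ψ l X) = ∑ l, c l * inner (D.ψ k) (D.ψ l) := by
            refine sum_congr rfl fun l _ => ?_
            unfold inner
            rw [mul_sum]
            exact sum_congr rfl fun X _ => by ring
        _ = ∑ l, c l * (if k = l then 1 else 0) := by simp only [D.orth]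
        _ = c k := by simp
    rw [h2] at h3
    rw [← h3]
    simp [inner]
  have h2 := h.fintype_card_le_finrank
  rw [Fintype.card_fin, Module.finrank_fintype_fun_eq_card, Sym.card_sym_eq_choose] at h2
  exact h2

theorem K_pos (D : Mixed V N) : 0 < D.K := by
  rcases Nat.eq_zero_or_pos D.K with h | h
  · exfalso
    have h1 := D.sum
    have : IsEmpty (Fin D.K) := by rw [h]; exact Fin.isEmpty
    rw [univ_eq_empty, sum_empty] at h1
    norm_num at h1
  · exact h

theorem entropy_le_log (D : Mixed V N) : D.entropy ≤ Real.log D.K := by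
  have hK : (0 : ℝ) < D.K := by exact_mod_cast K_pos D
  have h := Real.concaveOn_negMulLog.le_map_sum (t := univ) (w := fun _ : Fin D.K => (D.K : ℝ)⁻¹)
    (p := D.p) (fun _ _ => by positivity) (by simp [hK.ne']) (fun k _ => Set.mem_Ici.2 (D.nonneg k))
  simp only [smul_eq_mul, ← mul_sum] at h
  rw [D.sum, mul_one, Real.negMulLog, Real.log_inv] at h
  have h1 : (D.K : ℝ)⁻¹ * D.entropy ≤ (D.K : ℝ)⁻¹ * Real.log D.K := by
    refine le_trans h (le_of_eq ?_)
    ring
  exact le_of_mul_le_mul_left h1 (by positivity)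

theorem log_choose_le {n N : ℕ} (hn : 1 ≤ n) (hN : 1 ≤ N) :
    Real.log ((n + N - 1).choose N) ≤ N * (1 + Real.log (1 + n / N)) := by
  have hN' : (0 : ℝ) < N := by exact_mod_cast hN
  have hn' : (0 : ℝ) < n := by exact_mod_cast hn
  have hpos : (0 : ℝ) < ((n + N - 1).choose N : ℝ) := by
    exact_mod_cast Nat.choose_pos (by omega)
  have h1 : ((n + N - 1).choose N : ℝ) ≤ ((n + N - 1 : ℕ) : ℝ) ^ N / (N.factorial : ℝ) :=
    Nat.choose_le_pow_div N (n + N - 1)
  have h2 : (N : ℝ) ^ N / (N.factorial : ℝ) ≤ Real.exp N :=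
    Real.pow_div_factorial_le_exp _ (Nat.cast_nonneg _) N
  have h3 : ((n + N - 1 : ℕ) : ℝ) ≤ (1 + (n : ℝ) / N) * N := by
    have : ((n + N - 1 : ℕ) : ℝ) ≤ ((n + N : ℕ) : ℝ) := by
      exact_mod_cast Nat.sub_le _ _
    refine this.trans (le_of_eq ?_)
    push_cast
    field_simp
    ring
  have hfac : (0 : ℝ) < (N.factorial : ℝ) := by exact_mod_cast Nat.factorial_pos N
  have h4 : ((n + N - 1).choose N : ℝ) ≤ (1 + (n : ℝ) / N) ^ N * Real.exp N := by
    calc _ ≤ ((n + N - 1 : ℕ) : ℝ) ^ N / (N.factorial : ℝ) := h1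
      _ ≤ ((1 + (n : ℝ) / N) * N) ^ N / (N.factorial : ℝ) := by
          refine div_le_div_of_nonneg_right ?_ hfac.le
          exact pow_le_pow_left₀ (Nat.cast_nonneg _) h3 N
      _ = (1 + (n : ℝ) / N) ^ N * ((N : ℝ) ^ N / (N.factorial : ℝ)) := by
          rw [mul_pow]; ring
      _ ≤ _ := mul_le_mul_of_nonneg_left h2 (by positivity)
  have h5 := Real.log_le_log hpos h4
  rw [Real.log_mul (by positivity) (Real.exp_pos _).ne', Real.log_pow, Real.log_exp] at h5
  linarith

/-- **the entropy of a mixed state** -/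
theorem entropy_le (D : Mixed V N) (hn : 1 ≤ Fintype.card V) (hN : 1 ≤ N) :
    D.entropy ≤ N * (1 + Real.log (1 + Fintype.card V / N)) := by
  refine (entropy_le_log D).trans (le_trans ?_ (log_choose_le hn hN))
  refine Real.log_le_log (by exact_mod_cast K_pos D) ?_
  exact_mod_cast card_le D

theorem entropy_nonneg (D : Mixed V N) : 0 ≤ D.entropy := by
  refine sum_nonneg fun k _ => Real.negMulLog_nonneg (D.nonneg k) ?_
  rw [← D.sum]
  exact single_le_sum (fun l _ => D.nonneg l) (mem_univ k)

/-- a pure state -/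
noncomputable def pure (Ψ : WF V N) (hs : IsSymm Ψ) (hn : normSq Ψ = 1) : Mixed V N where
  K := 1
  p := fun _ => 1
  ψ := fun _ => Ψ
  nonneg := fun _ => zero_le_one
  sum := by simp
  symm := fun _ => hs
  orth := by
    intro k l
    rw [if_pos (Subsingleton.elim k l)]
    unfold inner
    have : ∀ X, conj (Ψ X) * Ψ X = ((‖Ψ X‖ ^ 2 : ℝ) : ℂ) := by
      intro X
      rw [mul_comm, Complex.mul_conj, Complex.normSq_eq_norm_sq]
    simp only [this]
    rw [← Complex.ofReal_sum]
    have h : ∑ X, ‖Ψ X‖ ^ 2 = 1 := hn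
    rw [h, Complex.ofReal_one]

theorem pure_entropy (Ψ : WF V N) (hs : IsSymm Ψ) (hn : normSq Ψ = 1) :
    (pure Ψ hs hn).entropy = 0 := by
  unfold Mixed.entropy
  refine sum_eq_zero fun k _ => ?_
  exact Real.negMulLog_one

theorem pure_energy (Ψ : WF V N) (hs : IsSymm Ψ) (hn : normSq Ψ = 1) (T : V → V → ℝ)
    (v : V → V → ℝ≥0∞) : (pure Ψ hs hn).energy T v = energy T v Ψ := by
  unfold Mixed.energy
  change ∑ k : Fin 1, ENNReal.ofReal 1 * energy T v Ψ = _
  simp

theorem norm_mixed (D : Mixed V N) (k : Fin D.K) : normSq (D.ψ k) = 1 := by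
  have h := D.orth k k
  rw [if_pos rfl] at h
  unfold inner at h
  have : ∀ X, conj (D.ψ k X) * D.ψ k X = ((‖D.ψ k X‖ ^ 2 : ℝ) : ℂ) := by
    intro X
    rw [mul_comm, Complex.mul_conj, Complex.normSq_eq_norm_sq]
  simp only [this] at h
  rw [← Complex.ofReal_sum] at h
  exact_mod_cast h

end Pool.Agent.U240.BG
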