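import Pool.Agent.U240.BG.Main

/-!
# The lattice gas with an on-site hard core
-/

set_option autoImplicit false
set_option linter.unusedSectionVars false

namespace Pool.Agent.U240.BG

open Finset Function
open scoped ENNReal ComplexConjugate

variable {V : Type} [Fintype V] [DecidableEq V] {N : ℕ}

/-- an on-site hard core and a finite interaction otherwise -/
structure OnSite (v : V → V → ℝ≥0∞) (w : ℝ) : Prop where
  symm : ∀ x y, v x y = v y x
  diag : ∀ x, v x x = ⊤
  off : ∀ x y, x ≠ y → v x y ≠ ⊤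
  fin : ∀ x, ∑ y ∈ univ.erase x, (v x y).toReal ≤ w

theorem OnSite.excl_eq {v : V → V → ℝ≥0∞} {w : ℝ} (hv : OnSite v w) (x : V) :
    univ.filter (fun y => v x y = ⊤) = {x} := by
  ext y
  rw [mem_filter, mem_singleton]
  constructor
  · rintro ⟨-, h⟩
    by_contra hne
    exact hv.off x y (Ne.symm hne) h
  · rintro rfl
    exact ⟨mem_univ _, hv.diag _⟩

theorem OnSite.interaction {v : V → V → ℝ≥0∞} {w : ℝ} (hv : OnSite v w) :
    Interaction v 1 w where
  symm := hv.symm
  excl := fun x => by rw [hv.excl_eq]; simp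
  fin := fun x => by
    refine le_trans (le_of_eq ?_) (hv.fin x)
    refine sum_congr ?_ fun _ _ => rfl
    ext y
    rw [mem_filter, mem_erase]
    constructor
    · rintro ⟨-, h⟩
      refine ⟨fun h1 => h ?_, mem_univ _⟩
      rw [h1]
      exact hv.diag x
    · rintro ⟨h, -⟩
      exact ⟨mem_univ _, hv.off x y (Ne.symm h)⟩

theorem mem_Alw_inj {v : V → V → ℝ≥0∞} {w : ℝ} (hv : OnSite v w) {X : Fin N → V} :
    X ∈ Alw v N ↔ Injective X := by
  rw [mem_Alw]
  constructor
  · intro h i j hij
    by_contra hne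
    apply h i j hne
    rw [hij]
    exact hv.diag _
  · intro h i j hij
    exact hv.off _ _ fun h1 => hij (h h1)

/-- the number of the allowed configurations with two given positions -/
noncomputable def cnt (v : V → V → ℝ≥0∞) (i j : Fin N) (x y : V) : ℕ :=
  ((Alw v N).filter (fun X => X i = x ∧ X j = y)).card

theorem cnt_perm {v : V → V → ℝ≥0∞} {w : ℝ} (hv : OnSite v w) (i j : Fin N) (π : Equiv.Perm V)
    (x y : V) : cnt v i j (π x) (π y) = cnt v i j x y := by
  unfold cnt
  refine (card_bij' (fun X _ => π ∘ X) (fun X _ => π.symm ∘ X) ?_ ?_ ?_ ?_).symm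
  · intro X hX
    rw [mem_filter, mem_Alw_inj hv] at hX ⊢
    exact ⟨π.injective.comp hX.1, by simp [hX.2.1], by simp [hX.2.2]⟩
  · intro X hX
    rw [mem_filter, mem_Alw_inj hv] at hX ⊢
    exact ⟨π.symm.injective.comp hX.1, by simp [hX.2.1], by simp [hX.2.2]⟩
  · intro X _
    funext k
    simp
  · intro X _
    funext k
    simp

theorem exists_perm {x y x' y' : V} (h : x ≠ y) (h' : x' ≠ y') :
    ∃ π : Equiv.Perm V, π x = x' ∧ π y = y' := by
  refine ⟨Equiv.swap (Equiv.swap x x' y) y' * Equiv.swap x x', ?_, ?_⟩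
  · rw [Equiv.Perm.mul_apply, Equiv.swap_apply_left]
    refine Equiv.swap_apply_of_ne_of_ne ?_ h'
    intro h1
    apply h
    apply (Equiv.swap x x').injective
    rw [Equiv.swap_apply_left]
    exact h1
  · rw [Equiv.Perm.mul_apply, Equiv.swap_apply_left]

theorem cnt_const {v : V → V → ℝ≥0∞} {w : ℝ} (hv : OnSite v w) (i j : Fin N)
    {x y x' y' : V} (h : x ≠ y) (h' : x' ≠ y') : cnt v i j x y = cnt v i j x' y' := by
  obtain ⟨π, h1, h2⟩ := exists_perm h h'
  rw [← h1, ← h2, cnt_perm hv]

/-- sums over pairs of particles -/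
theorem sum_pair {v : V → V → ℝ≥0∞} {w : ℝ} (hv : OnSite v w) (i j : Fin N) (hij : i ≠ j)
    (F : V → V → ℝ) : ∑ X ∈ Alw v N, F (X i) (X j) =
      ∑ x, ∑ y ∈ univ.erase x, (cnt v i j x y : ℝ) * F x y := by
  have h1 : ∀ X ∈ Alw v N, F (X i) (X j) =
      ∑ x, ∑ y ∈ univ.erase x, if X i = x ∧ X j = y then F x y else 0 := by
    intro X hX
    rw [mem_Alw_inj hv] at hX
    rw [sum_eq_single (X i), sum_eq_single (X j)]
    · simp
    · intro y _ hy
      rw [if_neg]
      rintro ⟨-, h⟩
      exact hy h.symm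
    · intro h
      exfalso
      apply h
      rw [mem_erase]
      exact ⟨fun h1 => hij (hX h1).symm, mem_univ _⟩
    · intro x _ hx
      refine sum_eq_zero fun y _ => ?_
      rw [if_neg]
      rintro ⟨h, -⟩
      exact hx h.symm
    · intro h
      exact absurd (mem_univ _) h
  rw [sum_congr rfl h1, sum_comm]
  refine sum_congr rfl fun x _ => ?_
  rw [sum_comm]
  refine sum_congr rfl fun y _ => ?_
  rw [← sum_filter, sum_const, nsmul_eq_mul]
  rfl

theorem mean_pair {v : V → V → ℝ≥0∞} {w : ℝ} (hv : OnSite v w) (i j : Fin N) (hij : i ≠ j)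
    (F : V → V → ℝ) {B : ℝ} (hF : ∀ x, ∑ y ∈ univ.erase x, F x y ≤ B) :
    ∑ X ∈ Alw v N, F (X i) (X j) * ((Fintype.card V : ℝ) - 1) ≤ (Alw v N).card * B := by
  have h1 := sum_pair hv i j hij F
  have h2 := sum_pair hv i j hij (fun _ _ => 1)
  rw [sum_const, nsmul_eq_mul, mul_one] at h2
  rw [← sum_mul, h1, h2]
  by_cases hc : ∃ x y : V, x ≠ y
  · obtain ⟨x₀, y₀, h0⟩ := hc
    have h3 : ∀ x, ∀ y ∈ univ.erase x, (cnt v i j x y : ℝ) = cnt v i j x₀ y₀ := by
      intro x y hy
      rw [cnt_const hv i j (ne_of_mem_erase hy).symm h0]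
    have h4 : ∑ x, ∑ y ∈ univ.erase x, (cnt v i j x y : ℝ) * F x y =
        cnt v i j x₀ y₀ * ∑ x, ∑ y ∈ univ.erase x, F x y := by
      rw [mul_sum]
      refine sum_congr rfl fun x _ => ?_
      rw [mul_sum]
      exact sum_congr rfl fun y hy => by rw [h3 x y hy]
    have h5 : ∑ x, ∑ y ∈ univ.erase x, (cnt v i j x y : ℝ) * 1 =
        cnt v i j x₀ y₀ * ∑ _x : V, ((Fintype.card V : ℝ) - 1) := by
      rw [mul_sum]
      refine sum_congr rfl fun x _ => ?_
      rw [sum_congr rfl fun y hy => by rw [h3 x y hy], sum_const,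
        card_erase_of_mem (mem_univ _), card_univ, nsmul_eq_mul]
      have : 1 ≤ Fintype.card V := Fintype.card_pos_iff.2 ⟨x₀⟩
      rw [Nat.cast_sub this]
      push_cast
      ring
    have hn : (0 : ℝ) ≤ (Fintype.card V : ℝ) - 1 := by
      have : 1 ≤ Fintype.card V := Fintype.card_pos_iff.2 ⟨x₀⟩
      have : (1 : ℝ) ≤ Fintype.card V := by exact_mod_cast this
      linarith
    rw [h4, h5, sum_const, card_univ, nsmul_eq_mul]
    have h6 : ∑ x, ∑ y ∈ univ.erase x, F x y ≤ ∑ _x : V, B := sum_le_sum fun x _ => hF x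
    rw [sum_const, card_univ, nsmul_eq_mul] at h6
    have h7 : (0 : ℝ) ≤ cnt v i j x₀ y₀ * ((Fintype.card V : ℝ) - 1) :=
      mul_nonneg (Nat.cast_nonneg _) hn
    calc (cnt v i j x₀ y₀ : ℝ) * (∑ x, ∑ y ∈ univ.erase x, F x y) * ((Fintype.card V : ℝ) - 1)
        = (cnt v i j x₀ y₀ * ((Fintype.card V : ℝ) - 1)) *
          (∑ x, ∑ y ∈ univ.erase x, F x y) := by ring
      _ ≤ (cnt v i j x₀ y₀ * ((Fintype.card V : ℝ) - 1)) * (Fintype.card V * B) :=
          mul_le_mul_of_nonneg_left h6 h7
      _ = _ := by ring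
  · push Not at hc
    have h3 : ∀ x : V, univ.erase x = (∅ : Finset V) := by
      intro x
      ext y
      simp [hc y x]
    simp [h3]

/-- the kinetic energy of one particle in the uniform state -/
theorem kin_onsite {T : V → V → ℝ} {τ g : ℝ} (hG : Graph T τ g) {v : V → V → ℝ≥0∞} {w : ℝ}
    (hv : OnSite v w) (h : (Alw v N).Nonempty) (i : Fin N) (hn : 1 < Fintype.card V) :
    kin T (trial v N) i ≤ 2 * (((N : ℝ) - 1) * τ) / ((Fintype.card V : ℝ) - 1) := by
  have hA : (0 : ℝ) < (Alw v N).card := by exact_mod_cast h.card_pos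
  have hn1 : (1 : ℝ) < Fintype.card V := by exact_mod_cast hn
  have hN : 1 ≤ N := by
    have := i.isLt
    omega
  have h1 := kin_trial_aux hG.nonneg hG.symm v i
  have h2 : ∑ X : Fin N → V, ∑ x, ∑ y, T x y *
        (if update X i x ∈ Alw v N ∧ update X i y ∉ Alw v N then (1 : ℝ) else 0) ≤
      ∑ X : Fin N → V, ∑ x, (if update X i x ∈ Alw v N then
        ∑ j ∈ univ.erase i, T (update X i x i) (update X i x j) else 0) := by
    refine sum_le_sum fun X _ => sum_le_sum fun x _ => ?_
    by_cases hx : update X i x ∈ Alw v N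
    · rw [if_pos hx]
      have hX := ((update_mem hv.interaction i X x).1 hx).1
      calc ∑ y, T x y *
            (if update X i x ∈ Alw v N ∧ update X i y ∉ Alw v N then (1 : ℝ) else 0)
          ≤ ∑ y, ∑ j ∈ univ.erase i, (if X j = y then T x y else 0) := by
            refine sum_le_sum fun y _ => ?_
            by_cases hy : update X i y ∈ Alw v N
            · rw [if_neg (fun h => h.2 hy), mul_zero]
              refine sum_nonneg fun j _ => ?_
              split_ifs
              · exact hG.nonneg _ _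
              · exact le_rfl
            · rw [if_pos ⟨hx, hy⟩, mul_one]
              have hyb : y ∈ bad v i X := by
                by_contra hyb
                exact hy ((update_mem hv.interaction i X y).2 ⟨hX, hyb⟩)
              rw [bad, mem_biUnion] at hyb
              obtain ⟨j, hj, hjy⟩ := hyb
              rw [hv.excl_eq, mem_singleton] at hjy
              refine le_trans (le_of_eq ?_) (single_le_sum (f := fun j =>
                if X j = y then T x y else 0) (fun k _ => ?_) hj)
              · rw [if_pos hjy.symm]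
              · split_ifs
                · exact hG.nonneg _ _
                · exact le_rfl
        _ = ∑ j ∈ univ.erase i, T x (X j) := by
            rw [sum_comm]
            refine sum_congr rfl fun j _ => ?_
            rw [sum_ite_eq]
            simp
        _ = ∑ j ∈ univ.erase i, T (update X i x i) (update X i x j) := by
            refine sum_congr rfl fun j hj => ?_
            rw [update_self, update_of_ne (ne_of_mem_erase hj)]
    · rw [if_neg hx]
      refine (sum_eq_zero fun y _ => ?_).le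
      rw [if_neg (fun h => hx h.1), mul_zero]
  have h3 := avg i (fun X : Fin N → V => if X ∈ Alw v N then
    ∑ j ∈ univ.erase i, T (X i) (X j) else 0)
  rw [sum_ite_mem, univ_inter, nsmul_eq_mul] at h3
  rw [h3] at h2
  have hV0 : (0 : ℝ) < Fintype.card V := by linarith
  have h4 : kin T (trial v N) i ≤ 2 * ((Alw v N).card : ℝ)⁻¹ *
      ∑ X ∈ Alw v N, ∑ j ∈ univ.erase i, T (X i) (X j) := by
    have h5 : (Fintype.card V : ℝ) * kin T (trial v N) i ≤ (Fintype.card V : ℝ) *
        (2 * ((Alw v N).card : ℝ)⁻¹ * ∑ X ∈ Alw v N, ∑ j ∈ univ.erase i, T (X i) (X j)) := by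
      refine h1.trans ((mul_le_mul_of_nonneg_left h2 (by positivity)).trans (le_of_eq ?_))
      ring
    exact le_of_mul_le_mul_left h5 hV0
  have h6 : (∑ X ∈ Alw v N, ∑ j ∈ univ.erase i, T (X i) (X j)) *
      ((Fintype.card V : ℝ) - 1) ≤ ((N : ℝ) - 1) * ((Alw v N).card * τ) := by
    rw [sum_comm, sum_mul]
    calc ∑ j ∈ univ.erase i, (∑ X ∈ Alw v N, T (X i) (X j)) * ((Fintype.card V : ℝ) - 1)
        ≤ ∑ j ∈ univ.erase i, (Alw v N).card * τ := by
          refine sum_le_sum fun j hj => ?_
          rw [sum_mul]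
          refine mean_pair hv i j (ne_of_mem_erase hj).symm T fun x => ?_
          exact (sum_le_univ_sum_of_nonneg fun y => hG.nonneg x y).trans (hG.deg x)
      _ = _ := by
          rw [sum_const, card_erase_of_mem (mem_univ _), card_univ, Fintype.card_fin,
            nsmul_eq_mul, Nat.cast_sub hN, Nat.cast_one]
  rw [le_div_iff₀ (by linarith)]
  calc kin T (trial v N) i * ((Fintype.card V : ℝ) - 1)
      ≤ 2 * ((Alw v N).card : ℝ)⁻¹ * (∑ X ∈ Alw v N, ∑ j ∈ univ.erase i, T (X i) (X j)) *
        ((Fintype.card V : ℝ) - 1) := mul_le_mul_of_nonneg_right h4 (by linarith)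
    _ = 2 * ((Alw v N).card : ℝ)⁻¹ * ((∑ X ∈ Alw v N, ∑ j ∈ univ.erase i, T (X i) (X j)) *
        ((Fintype.card V : ℝ) - 1)) := by ring
    _ ≤ 2 * ((Alw v N).card : ℝ)⁻¹ * (((N : ℝ) - 1) * ((Alw v N).card * τ)) :=
        mul_le_mul_of_nonneg_left h6 (by positivity)
    _ = _ := by field_simp

/-- the potential energy of a state which is a multiple of an indicator function -/
theorem potential_trial {v : V → V → ℝ≥0∞} :
    potential v (trial v N) = ENNReal.ofReal (∑ i : Fin N,
      ∑ j ∈ univ.filter (fun j => i < j),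
        ((Alw v N).card : ℝ)⁻¹ * ∑ X ∈ Alw v N, (v (X i) (X j)).toReal) := by
  have h1 : potential v (trial v N) = ∑ X ∈ Alw v N, ENNReal.ofReal
      ((∑ i : Fin N, ∑ j ∈ univ.filter (fun j => i < j), (v (X i) (X j)).toReal) *
        ((Alw v N).card : ℝ)⁻¹) := by
    unfold potential
    rw [← sum_subset (subset_univ (Alw v N))]
    · refine sum_congr rfl fun X hX => ?_
      rw [norm_trial, if_pos hX, ENNReal.ofReal_mul
        (sum_nonneg fun i _ => sum_nonneg fun j _ => ENNReal.toReal_nonneg)]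
      congr 1
      rw [ENNReal.ofReal_sum_of_nonneg
        (fun i _ => sum_nonneg fun j _ => ENNReal.toReal_nonneg)]
      refine sum_congr rfl fun i _ => ?_
      rw [ENNReal.ofReal_sum_of_nonneg (fun j _ => ENNReal.toReal_nonneg)]
      refine sum_congr rfl fun j hj => ?_
      rw [mem_filter] at hj
      rw [ENNReal.ofReal_toReal (mem_Alw.1 hX i j hj.2.ne)]
    · intro X _ hX
      rw [norm_trial, if_neg hX]
      simp
  rw [h1, ← ENNReal.ofReal_sum_of_nonneg]
  · congr 1
    rw [← sum_mul, sum_comm, mul_comm, mul_sum]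
    refine sum_congr rfl fun i _ => ?_
    rw [sum_comm, mul_sum]
  · intro X _
    exact mul_nonneg (sum_nonneg fun i _ => sum_nonneg fun j _ => ENNReal.toReal_nonneg)
      (by positivity)

/-- the energy of the uniform state -/
theorem energy_onsite {T : V → V → ℝ} {τ g : ℝ} (hG : Graph T τ g) {v : V → V → ℝ≥0∞} {w : ℝ}
    (hv : OnSite v w) (h : (Alw v N).Nonempty) (hn : 1 < Fintype.card V) :
    energy T v (trial v N) ≤ ENNReal.ofReal
      (N * (N - 1) * (τ + w / 2) / ((Fintype.card V : ℝ) - 1)) := by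
  have hA : (0 : ℝ) < (Alw v N).card := by exact_mod_cast h.card_pos
  have hn1 : (1 : ℝ) < Fintype.card V := by exact_mod_cast hn
  have hkin : kinetic T (trial v N) ≤ N * (N - 1) * τ / ((Fintype.card V : ℝ) - 1) := by
    rw [kinetic_eq]
    have h1 : ∑ i : Fin N, kin T (trial v N) i ≤ ∑ i : Fin N,
        2 * (((N : ℝ) - 1) * τ) / ((Fintype.card V : ℝ) - 1) :=
      sum_le_sum fun i _ => kin_onsite hG hv h i hn
    rw [sum_const, card_univ, Fintype.card_fin, nsmul_eq_mul] at h1
    calc 1 / 2 * ∑ i : Fin N, kin T (trial v N) i ≤ 1 / 2 * (N *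
          (2 * (((N : ℝ) - 1) * τ) / ((Fintype.card V : ℝ) - 1))) := by linarith
      _ = _ := by ring
  have hpot2 : ∑ i : Fin N, ∑ j ∈ univ.filter (fun j => i < j),
        ((Alw v N).card : ℝ)⁻¹ * ∑ X ∈ Alw v N, (v (X i) (X j)).toReal ≤
      N * (N - 1) * (w / 2) / ((Fintype.card V : ℝ) - 1) := by
    calc _ ≤ ∑ i : Fin N, ∑ j ∈ univ.filter (fun j => i < j),
          w / ((Fintype.card V : ℝ) - 1) * 1 := by
          refine sum_le_sum fun i _ => sum_le_sum fun j hj => ?_
          rw [mem_filter] at hj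
          rw [mul_one, le_div_iff₀ (by linarith)]
          have h1 := mean_pair hv i j hj.2.ne (fun x y => (v x y).toReal) hv.fin
          rw [← sum_mul] at h1
          calc ((Alw v N).card : ℝ)⁻¹ * (∑ X ∈ Alw v N, (v (X i) (X j)).toReal) *
                ((Fintype.card V : ℝ) - 1)
              = ((Alw v N).card : ℝ)⁻¹ * ((∑ X ∈ Alw v N, (v (X i) (X j)).toReal) *
                ((Fintype.card V : ℝ) - 1)) := by ring
            _ ≤ ((Alw v N).card : ℝ)⁻¹ * ((Alw v N).card * w) :=
                mul_le_mul_of_nonneg_left h1 (by positivity)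
            _ = w := by field_simp
      _ = _ := by
          simp only [← mul_sum]
          rw [card_pairs]
          ring
  unfold energy
  rw [potential_trial, ← ENNReal.ofReal_add (kinetic_nonneg hG.nonneg _)
    (sum_nonneg fun i _ => sum_nonneg fun j _ => mul_nonneg (by positivity)
      (sum_nonneg fun X _ => ENNReal.toReal_nonneg))]
  refine ENNReal.ofReal_le_ofReal ?_
  calc _ ≤ N * (N - 1) * τ / ((Fintype.card V : ℝ) - 1) +
        N * (N - 1) * (w / 2) / ((Fintype.card V : ℝ) - 1) := add_le_add hkin hpot2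
    _ = _ := by ring

/-- near ground states of the lattice gas -/
theorem ground_onsite {T : V → V → ℝ} {τ g : ℝ} (hG : Graph T τ g) (hg : 0 < g)
    {v : V → V → ℝ≥0∞} {w : ℝ} (hw : 0 ≤ w) (hv : OnSite v w)
    (hN : 1 ≤ N) (hNn : N ≤ Fintype.card V) (hn : 1 < Fintype.card V) {δ : ℝ} (hδ : 0 ≤ δ)
    {Ψ : WF V N} (hΨ : normSq Ψ = 1)
    (hmin : ∀ Φ : WF V N, IsSymm Φ → normSq Φ = 1 →
      energy T v Ψ ≤ energy T v Φ + ENNReal.ofReal (δ * N)) :
    (N : ℝ) * (1 - ((N - 1) * (τ + w / 2) / (Fintype.card V - 1) + δ) / g) ≤ condensate Ψ := by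
  have hN' : (1 : ℝ) ≤ N := by exact_mod_cast hN
  have hn1 : (1 : ℝ) < Fintype.card V := by exact_mod_cast hn
  have hV : 0 < Fintype.card V := by omega
  have hτ : 0 ≤ τ := by
    obtain ⟨x⟩ := Fintype.card_pos_iff.1 hV
    exact (sum_nonneg fun y _ => hG.nonneg x y).trans (hG.deg x)
  have hA : (Alw v N).Nonempty := exists_alw hv.interaction N (by omega)
  have h1 := hmin (trial v N) (trial_symm v N) (trial_norm hA)
  have h2 := energy_onsite hG hv hA hn
  have hE0 : 0 ≤ (N : ℝ) * (N - 1) * (τ + w / 2) / ((Fintype.card V : ℝ) - 1) := by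
    refine div_nonneg (mul_nonneg (mul_nonneg (by linarith) (by linarith)) ?_) (by linarith)
    linarith
  have h3 : energy T v Ψ ≤ ENNReal.ofReal
      (N * (N - 1) * (τ + w / 2) / ((Fintype.card V : ℝ) - 1) + δ * N) := by
    rw [ENNReal.ofReal_add hE0 (mul_nonneg hδ (by linarith))]
    exact h1.trans (add_le_add_left h2 _)
  have h4 := condensate_of_energy hG hg hV hΨ (add_nonneg hE0 (mul_nonneg hδ (by linarith))) h3
  refine le_trans (le_of_eq ?_) h4
  have : (Fintype.card V : ℝ) - 1 ≠ 0 := by linarith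
  field_simp

/-- near equilibrium states of the lattice gas -/
theorem equilibrium_onsite {T : V → V → ℝ} {τ g : ℝ} (hG : Graph T τ g) (hg : 0 < g)
    {v : V → V → ℝ≥0∞} {w : ℝ} (hw : 0 ≤ w) (hv : OnSite v w)
    (hN : 1 ≤ N) (hNn : N ≤ Fintype.card V) (hn : 1 < Fintype.card V) {θ δ : ℝ} (hθ : 0 ≤ θ)
    (hδ : 0 ≤ δ) {D : Mixed V N} (hmin : NearEquilibrium T v θ (δ * N) D) :
    D.energy T v ≠ ⊤ ∧
    (N : ℝ) * (1 - ((N - 1) * (τ + w / 2) / (Fintype.card V - 1) +
      θ * (1 + Real.log (1 + Fintype.card V / N)) + δ) / g) ≤ D.condensate := by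
  have hN' : (1 : ℝ) ≤ N := by exact_mod_cast hN
  have hn1 : (1 : ℝ) < Fintype.card V := by exact_mod_cast hn
  have hV : 0 < Fintype.card V := by omega
  have hτ : 0 ≤ τ := by
    obtain ⟨x⟩ := Fintype.card_pos_iff.1 hV
    exact (sum_nonneg fun y _ => hG.nonneg x y).trans (hG.deg x)
  have hA : (Alw v N).Nonempty := exists_alw hv.interaction N (by omega)
  have h1 := hmin (pure (trial v N) (trial_symm v N) (trial_norm hA))
  rw [pure_entropy, pure_energy, mul_zero, ENNReal.ofReal_zero, add_zero] at h1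
  have h2 := energy_onsite hG hv hA hn
  have hE0 : 0 ≤ (N : ℝ) * (N - 1) * (τ + w / 2) / ((Fintype.card V : ℝ) - 1) := by
    refine div_nonneg (mul_nonneg (mul_nonneg (by linarith) (by linarith)) ?_) (by linarith)
    linarith
  have hS := entropy_le D hV hN
  have hlog : 0 ≤ Real.log (1 + (Fintype.card V : ℝ) / N) := by
    apply Real.log_nonneg
    have : (0 : ℝ) ≤ (Fintype.card V : ℝ) / N := by positivity
    linarith
  have hX : 0 ≤ θ * (N * (1 + Real.log (1 + (Fintype.card V : ℝ) / N))) + δ * N := by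
    positivity
  have h3 : D.energy T v ≤ ENNReal.ofReal
      (N * (N - 1) * (τ + w / 2) / ((Fintype.card V : ℝ) - 1) +
        (θ * (N * (1 + Real.log (1 + (Fintype.card V : ℝ) / N))) + δ * N)) := by
    rw [ENNReal.ofReal_add hE0 hX]
    refine h1.trans (add_le_add h2 (ENNReal.ofReal_le_ofReal ?_))
    have := mul_le_mul_of_nonneg_left hS hθ
    linarith
  have h4 := mixed_condensate hG hg hV D (add_nonneg hE0 hX) h3
  refine ⟨(h3.trans_lt ENNReal.ofReal_lt_top).ne, le_trans (le_of_eq ?_) h4⟩
  have : (Fintype.card V : ℝ) - 1 ≠ 0 := by linarith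
  field_simp
  ring

/-- exchanging a configuration and the moved one -/
theorem swap_sum {M : Type} [AddCommMonoid M] (i : Fin N) (F : (Fin N → V) → (Fin N → V) → M) :
    ∑ X : Fin N → V, ∑ y, F X (update X i y) = ∑ X : Fin N → V, ∑ y, F (update X i y) X := by
  rw [← sum_product', ← sum_product']
  refine sum_bij' (fun p _ => (update p.1 i p.2, p.1 i)) (fun p _ => (update p.1 i p.2, p.1 i))
    ?_ ?_ ?_ ?_ ?_
  · intro p _; simp
  · intro p _; simp
  · intro p _; simp
  · intro p _; simp
  · intro p _; simp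

/-- finite energy forces the on-site hard core -/
theorem vanish {T : V → V → ℝ} {v : V → V → ℝ≥0∞} {w : ℝ} (hv : OnSite v w) {Ψ : WF V N}
    (h : energy T v Ψ ≠ ⊤) {X : Fin N → V} (hX : ¬ Injective X) : Ψ X = 0 := by
  by_contra hne
  apply h
  rw [Injective] at hX
  push Not at hX
  obtain ⟨i, j, hij, hne'⟩ := hX
  have key : ∀ i j : Fin N, i < j → X i = X j → energy T v Ψ = ⊤ := by
    intro i j hlt hij
    unfold energy
    rw [ENNReal.add_eq_top]
    right
    unfold potential
    rw [ENNReal.sum_eq_top]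
    refine ⟨X, mem_univ _, ?_⟩
    have h1 : ∑ i, ∑ j ∈ univ.filter (fun j => i < j), v (X i) (X j) = ⊤ := by
      rw [ENNReal.sum_eq_top]
      refine ⟨i, mem_univ _, ?_⟩
      rw [ENNReal.sum_eq_top]
      refine ⟨j, mem_filter.2 ⟨mem_univ _, hlt⟩, ?_⟩
      rw [hij]
      exact hv.diag _
    rw [h1]
    refine ENNReal.top_mul ?_
    rw [ne_eq, ENNReal.ofReal_eq_zero, not_le]
    have : 0 < ‖Ψ X‖ := norm_pos_iff.2 hne
    positivity
  rcases lt_or_gt_of_ne hne' with h1 | h1
  · exact key i j h1 hij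
  · exact key j i h1 hij.symm

/-- **the upper bound for the condensate of the lattice gas** -/
theorem upper_onsite {T : V → V → ℝ} {v : V → V → ℝ≥0∞} {w : ℝ} (hv : OnSite v w)
    (hN : 1 ≤ N) {Ψ : WF V N} (hΨ : normSq Ψ = 1) (h : energy T v Ψ ≠ ⊤) :
    condensate Ψ ≤ N * (1 - (N - 1) / Fintype.card V) := by
  have hzero : ∀ X : Fin N → V, X ∉ Alw v N → Ψ X = 0 := fun X hX =>
    vanish hv h fun h1 => hX ((mem_Alw_inj hv).2 h1)
  have hcount : ∀ (i : Fin N) (X : Fin N → V), X ∈ Alw v N →
      ∑ y : V, (if update X i y ∈ Alw v N then (1 : ℝ) else 0) =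
        (Fintype.card V : ℝ) - (N - 1) := by
    intro i X hX
    have hXi : X ∈ Alx v i := by
      have := update_mem hv.interaction i X (X i)
      rw [update_eq_self] at this
      exact (this.1 hX).1
    have h1 : univ.filter (fun y => update X i y ∈ Alw v N) =
        univ \ ((univ.erase i).image X) := by
      ext y
      rw [mem_filter, mem_sdiff, update_mem hv.interaction]
      have h2 : bad v i X = (univ.erase i).image X := by
        unfold bad
        ext z
        simp only [mem_biUnion, mem_image]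
        constructor
        · rintro ⟨j, hj, hz⟩
          rw [hv.excl_eq, mem_singleton] at hz
          exact ⟨j, hj, hz.symm⟩
        · rintro ⟨j, hj, hz⟩
          exact ⟨j, hj, by rw [hv.excl_eq, mem_singleton]; exact hz.symm⟩
      rw [h2]
      exact ⟨fun h => ⟨h.1, h.2.2⟩, fun h => ⟨h.1, hXi, h.2⟩⟩
    rw [← sum_filter, sum_const, nsmul_eq_mul, mul_one, h1, card_sdiff_of_subset (subset_univ _),
      card_image_of_injective _ ((mem_Alw_inj hv).1 hX), card_erase_of_mem (mem_univ _),
      card_univ, card_univ, Fintype.card_fin]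
    have h3 : N ≤ Fintype.card V := by
      have := Fintype.card_le_of_injective X ((mem_Alw_inj hv).1 hX)
      rwa [Fintype.card_fin] at this
    rw [Nat.cast_sub (by omega), Nat.cast_sub hN, Nat.cast_one]
  have hcon : ∀ i : Fin N, con Ψ i ≤ (Fintype.card V : ℝ) - (N - 1) := by
    intro i
    have h1 : con Ψ i ≤ ∑ X : Fin N → V, ∑ y,
        ((if update X i y ∈ Alw v N then (1 : ℝ) else 0) * (‖Ψ X‖ ^ 2 / 2) +
        (if X ∈ Alw v N then (1 : ℝ) else 0) * (‖Ψ (update X i y)‖ ^ 2 / 2)) := by
      unfold con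
      refine sum_le_sum fun X _ => sum_le_sum fun y _ => ?_
      by_cases hX : X ∈ Alw v N
      · by_cases hY : update X i y ∈ Alw v N
        · rw [if_pos hX, if_pos hY]
          have h2 := Complex.re_le_norm (Ψ X * conj (Ψ (update X i y)))
          rw [norm_mul, Complex.norm_conj] at h2
          nlinarith [sq_nonneg (‖Ψ X‖ - ‖Ψ (update X i y)‖)]
        · rw [hzero _ hY]
          simp
          split_ifs <;> positivity
      · rw [hzero _ hX]
        simp
        split_ifs <;> positivity
    have h2 : ∑ X : Fin N → V, ∑ y : V,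
        (if X ∈ Alw v N then (1 : ℝ) else 0) * (‖Ψ (update X i y)‖ ^ 2 / 2) =
        ∑ X : Fin N → V, ∑ y : V,
        (if update X i y ∈ Alw v N then (1 : ℝ) else 0) * (‖Ψ X‖ ^ 2 / 2) :=
      swap_sum i (fun X Y => (if X ∈ Alw v N then (1 : ℝ) else 0) * (‖Ψ Y‖ ^ 2 / 2))
    have h3 : ∑ X : Fin N → V, ∑ y : V,
        (if update X i y ∈ Alw v N then (1 : ℝ) else 0) * (‖Ψ X‖ ^ 2 / 2) =
        ((Fintype.card V : ℝ) - (N - 1)) * (normSq Ψ / 2) := by
      unfold normSq
      rw [sum_div, mul_sum]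
      refine sum_congr rfl fun X _ => ?_
      by_cases hX : X ∈ Alw v N
      · rw [← sum_mul, hcount i X hX]
      · rw [hzero X hX]
        simp
    simp only [sum_add_distrib] at h1
    rw [h2, h3, hΨ] at h1
    linarith
  rw [condensate_eq]
  rcases Nat.eq_zero_or_pos (Fintype.card V) with hV | hV
  · rw [hV]
    simp
  · have hV' : (0 : ℝ) < Fintype.card V := by exact_mod_cast hV
    rw [div_le_iff₀ hV']
    have h1 : ∑ i, con Ψ i ≤ ∑ _i : Fin N, ((Fintype.card V : ℝ) - (N - 1)) :=
      sum_le_sum fun i _ => hcon i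
    rw [sum_const, card_univ, Fintype.card_fin, nsmul_eq_mul] at h1
    refine h1.trans (le_of_eq ?_)
    field_simp

/-- the upper bound for mixed states -/
theorem upper_mixed {T : V → V → ℝ} {v : V → V → ℝ≥0∞} {w : ℝ} (hv : OnSite v w)
    (hN : 1 ≤ N) (D : Mixed V N) (h : D.energy T v ≠ ⊤) :
    D.condensate ≤ N * (1 - (N - 1) / Fintype.card V) := by
  have h1 : ∀ k, D.p k * condensate (D.ψ k) ≤ D.p k * (N * (1 - (N - 1) / Fintype.card V)) := by
    intro k
    rcases eq_or_lt_of_le (D.nonneg k) with h0 | h0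
    · rw [← h0, zero_mul, zero_mul]
    · refine mul_le_mul_of_nonneg_left (upper_onsite (T := T) hv hN (norm_mixed D k) fun h2 => h ?_) h0.le
      unfold Mixed.energy
      rw [ENNReal.sum_eq_top]
      refine ⟨k, mem_univ _, ?_⟩
      rw [h2]
      refine ENNReal.mul_top ?_
      rw [ne_eq, ENNReal.ofReal_eq_zero, not_le]
      exact h0
  unfold Mixed.condensate
  refine (sum_le_sum fun k _ => h1 k).trans (le_of_eq ?_)
  rw [← sum_mul, D.sum, one_mul]

/-- the spectral gap of a regular graph in terms of the second eigenvalue of the adjacency matrix -/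
theorem gap_of_regular (G : SimpleGraph V) [DecidableRel G.Adj] {d : ℕ} (hd : ∀ x, G.degree x = d)
    {lam : ℝ} (hl : ∀ f : V → ℝ, ∑ x, f x = 0 →
      ∑ x, ∑ y, (if G.Adj x y then f x * f y else 0) ≤ lam * ∑ x, f x ^ 2)
    (hV : 0 < Fintype.card V) :
    Graph (fun x y => if G.Adj x y then (1 : ℝ) else 0) d (d - lam) where
  nonneg := fun x y => by split_ifs <;> norm_num
  symm := fun x y => by simp only [G.adj_comm]
  deg := fun x => by
    rw [← sum_filter, sum_const, nsmul_eq_mul, mul_one]
    have : (univ.filter (fun y => G.Adj x y)).card = d := by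
      rw [← hd x, ← G.card_neighborFinset_eq_degree]
      congr 1
      ext y
      simp
    rw [this]
  gap := by
    intro f
    have hn : (0 : ℝ) < Fintype.card V := by exact_mod_cast hV
    set m : ℝ := (∑ x, f x) / Fintype.card V with hm
    have hdeg : ∀ x, ∑ y, (if G.Adj x y then (1 : ℝ) else 0) = d := by
      intro x
      rw [← sum_filter, sum_const, nsmul_eq_mul, mul_one]
      have : (univ.filter (fun y => G.Adj x y)).card = d := by
        rw [← hd x, ← G.card_neighborFinset_eq_degree]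
        congr 1
        ext y
        simp
      rw [this]
    have h0 : ∑ x, (f x - m) = 0 := by
      rw [sum_sub_distrib, sum_const, card_univ, nsmul_eq_mul, hm]
      field_simp
      ring
    have h1 := hl (fun x => f x - m) h0
    have h2 : ∑ x, (f x - m) ^ 2 = ∑ x, f x ^ 2 - (∑ x, f x) ^ 2 / Fintype.card V := by
      have e : ∀ x, (f x - m) ^ 2 = f x ^ 2 - 2 * m * f x + m ^ 2 := fun x => by ring
      rw [sum_congr rfl fun x _ => e x, sum_add_distrib, sum_sub_distrib, ← mul_sum, sum_const,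
        card_univ, nsmul_eq_mul, hm]
      field_simp
      ring
    have h3 : ∑ x, ∑ y, (if G.Adj x y then (1 : ℝ) else 0) * (f x - f y) ^ 2 =
        2 * d * ∑ x, (f x - m) ^ 2 -
          2 * ∑ x, ∑ y, (if G.Adj x y then (f x - m) * (f y - m) else 0) := by
      have e : ∀ x y, (if G.Adj x y then (1 : ℝ) else 0) * (f x - f y) ^ 2 =
          (f x - m) ^ 2 * (if G.Adj x y then (1 : ℝ) else 0) +
          (f y - m) ^ 2 * (if G.Adj x y then (1 : ℝ) else 0) -
          2 * (if G.Adj x y then (f x - m) * (f y - m) else 0) := by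
        intro x y
        split_ifs <;> ring
      have e2 : ∑ x, ∑ y, (f y - m) ^ 2 * (if G.Adj x y then (1 : ℝ) else 0) =
          ∑ x, ∑ y, (f x - m) ^ 2 * (if G.Adj x y then (1 : ℝ) else 0) := by
        rw [sum_comm]
        refine sum_congr rfl fun x _ => sum_congr rfl fun y _ => ?_
        simp only [G.adj_comm]
      have e3 : ∑ x, ∑ y, (f x - m) ^ 2 * (if G.Adj x y then (1 : ℝ) else 0) =
          d * ∑ x, (f x - m) ^ 2 := by
        rw [mul_sum]
        refine sum_congr rfl fun x _ => ?_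
        rw [← mul_sum, hdeg]
        ring
      rw [sum_congr rfl fun x _ => sum_congr rfl fun y _ => e x y]
      simp only [sum_sub_distrib, sum_add_distrib]
      rw [e2, e3]
      simp only [← mul_sum]
      ring
    rw [← h2]
    rw [h3]
    nlinarith

end Pool.Agent.U240.BG
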