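import Pool.Agent.U240.BG.Defs

/-!
# Averages over one particle and the lower bound for the kinetic energy
-/

set_option autoImplicit false

namespace Pool.Agent.U240.BG

open Finset Function
open scoped ENNReal ComplexConjugate

variable {V : Type} [Fintype V] [DecidableEq V] {N : ℕ}

/-- averaging over the position of one particle -/
theorem avg {M : Type} [AddCommMonoid M] (i : Fin N) (F : (Fin N → V) → M) :
    ∑ X : Fin N → V, ∑ x, F (update X i x) = Fintype.card V • ∑ X, F X := by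
  rw [← sum_product', univ_product_univ, ← card_univ (α := V), ← sum_const, ← sum_product',
    univ_product_univ]
  refine sum_bij' (fun p _ => (p.1 i, update p.1 i p.2)) (fun q _ => (update q.2 i q.1, q.2 i))
    ?_ ?_ ?_ ?_ ?_
  · intro p _; simp
  · intro q _; simp
  · intro p _
    simp
  · intro q _
    simp
  · intro p _
    simp

/-- the kinetic energy of one particle -/
noncomputable def kin (T : V → V → ℝ) (Ψ : WF V N) (i : Fin N) : ℝ :=
  ∑ X : Fin N → V, ∑ y, T (X i) y * ‖Ψ (update X i y) - Ψ X‖ ^ 2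

theorem kinetic_eq (T : V → V → ℝ) (Ψ : WF V N) : kinetic T Ψ = 1 / 2 * ∑ i, kin T Ψ i := rfl

theorem kin_avg (T : V → V → ℝ) (Ψ : WF V N) (i : Fin N) :
    (Fintype.card V : ℝ) * kin T Ψ i = ∑ X : Fin N → V, ∑ x, ∑ y,
      T x y * ‖Ψ (update X i y) - Ψ (update X i x)‖ ^ 2 := by
  have h := avg i (fun X : Fin N → V => ∑ y, T (X i) y * ‖Ψ (update X i y) - Ψ X‖ ^ 2)
  rw [nsmul_eq_mul] at h
  rw [kin, ← h]
  refine sum_congr rfl fun X _ => sum_congr rfl fun x _ => ?_
  simp

theorem normSq_avg (Ψ : WF V N) (i : Fin N) :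
    (Fintype.card V : ℝ) * normSq Ψ = ∑ X : Fin N → V, ∑ x, ‖Ψ (update X i x)‖ ^ 2 := by
  have h := avg i (fun X : Fin N → V => ‖Ψ X‖ ^ 2)
  rw [nsmul_eq_mul] at h
  rw [normSq, ← h]

/-- the part of the condensate due to one particle -/
noncomputable def con (Ψ : WF V N) (i : Fin N) : ℝ :=
  ∑ X : Fin N → V, ∑ y, (Ψ X * conj (Ψ (update X i y))).re

theorem condensate_eq (Ψ : WF V N) :
    condensate Ψ = (∑ i, con Ψ i) / Fintype.card V := by
  unfold condensate con gamma
  congr 1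
  simp only [Complex.re_sum]
  calc ∑ x, ∑ y, ∑ i, ∑ X ∈ univ.filter (fun X : Fin N → V => X i = x),
        (Ψ X * conj (Ψ (update X i y))).re
      = ∑ x, ∑ i, ∑ y, ∑ X ∈ univ.filter (fun X : Fin N → V => X i = x),
        (Ψ X * conj (Ψ (update X i y))).re := sum_congr rfl fun x _ => sum_comm
    _ = ∑ i, ∑ x, ∑ y, ∑ X ∈ univ.filter (fun X : Fin N → V => X i = x),
        (Ψ X * conj (Ψ (update X i y))).re := sum_comm
    _ = _ := by
        refine sum_congr rfl fun i _ => ?_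
        calc ∑ x, ∑ y, ∑ X ∈ univ.filter (fun X : Fin N → V => X i = x),
              (Ψ X * conj (Ψ (update X i y))).re
            = ∑ x, ∑ X ∈ univ.filter (fun X : Fin N → V => X i = x), ∑ y,
              (Ψ X * conj (Ψ (update X i y))).re := sum_congr rfl fun x _ => sum_comm
          _ = _ := sum_fiberwise _ _ _

theorem sum_re_mul_conj (f : V → ℂ) :
    ∑ x, ∑ y, (f x * conj (f y)).re = ‖∑ x, f x‖ ^ 2 := by
  have h : ∑ x, ∑ y, f x * conj (f y) = (∑ x, f x) * conj (∑ y, f y) := by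
    rw [map_sum, sum_mul_sum]
  have h2 := congrArg Complex.re h
  rw [Complex.mul_conj, Complex.ofReal_re, Complex.normSq_eq_norm_sq] at h2
  simpa only [Complex.re_sum] using h2

theorem con_avg (Ψ : WF V N) (i : Fin N) :
    (Fintype.card V : ℝ) * con Ψ i = ∑ X : Fin N → V, ‖∑ x, Ψ (update X i x)‖ ^ 2 := by
  have h := avg i (fun X : Fin N → V => ∑ y, (Ψ X * conj (Ψ (update X i y))).re)
  rw [nsmul_eq_mul] at h
  rw [con, ← h]
  refine sum_congr rfl fun X _ => ?_
  rw [← sum_re_mul_conj]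
  refine sum_congr rfl fun x _ => sum_congr rfl fun y _ => ?_
  simp

/-- the spectral gap for complex functions -/
theorem gap_complex {T : V → V → ℝ} {g : ℝ} (h : Gap T g) (f : V → ℂ) :
    2 * g * (∑ x, ‖f x‖ ^ 2 - ‖∑ x, f x‖ ^ 2 / Fintype.card V) ≤
      ∑ x, ∑ y, T x y * ‖f y - f x‖ ^ 2 := by
  have h1 := h (fun x => (f x).re)
  have h2 := h (fun x => (f x).im)
  have e : ∀ z : ℂ, ‖z‖ ^ 2 = z.re ^ 2 + z.im ^ 2 := fun z => by
    rw [← Complex.normSq_eq_norm_sq, Complex.normSq_apply]; ring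
  have e1 : ∑ x, ‖f x‖ ^ 2 = ∑ x, (f x).re ^ 2 + ∑ x, (f x).im ^ 2 := by
    rw [← sum_add_distrib]; exact sum_congr rfl fun x _ => e _
  have e2 : ‖∑ x, f x‖ ^ 2 = (∑ x, (f x).re) ^ 2 + (∑ x, (f x).im) ^ 2 := by
    rw [e, Complex.re_sum, Complex.im_sum]
  have e3 : ∑ x, ∑ y, T x y * ‖f y - f x‖ ^ 2 =
      ∑ x, ∑ y, T x y * ((f x).re - (f y).re) ^ 2 +
      ∑ x, ∑ y, T x y * ((f x).im - (f y).im) ^ 2 := by
    rw [← sum_add_distrib]
    refine sum_congr rfl fun x _ => ?_
    rw [← sum_add_distrib]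
    refine sum_congr rfl fun y _ => ?_
    rw [e, Complex.sub_re, Complex.sub_im]; ring
  rw [e1, e2, e3, add_div]
  linarith

/-- **the lower bound for the kinetic energy** -/
theorem kinetic_lower {T : V → V → ℝ} {g : ℝ} (h : Gap T g) (hV : 0 < Fintype.card V)
    (Ψ : WF V N) : g * (N * normSq Ψ - condensate Ψ) ≤ kinetic T Ψ := by
  have hn : (0 : ℝ) < Fintype.card V := by exact_mod_cast hV
  have key : ∀ i : Fin N, 2 * g * (normSq Ψ - con Ψ i / Fintype.card V) ≤ kin T Ψ i := by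
    intro i
    have h1 : 2 * g * ((Fintype.card V : ℝ) * normSq Ψ - con Ψ i) ≤
        (Fintype.card V : ℝ) * kin T Ψ i := by
      have h2 : con Ψ i = (∑ X : Fin N → V, ‖∑ x, Ψ (update X i x)‖ ^ 2) / Fintype.card V := by
        rw [← con_avg]; field_simp
      rw [normSq_avg Ψ i, kin_avg, h2, sum_div, ← sum_sub_distrib, mul_sum]
      exact sum_le_sum fun X _ => gap_complex h _
    have h3 : 2 * g * (normSq Ψ - con Ψ i / Fintype.card V) * Fintype.card V =
        2 * g * ((Fintype.card V : ℝ) * normSq Ψ - con Ψ i) := by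
      field_simp
    nlinarith
  have h4 : ∑ i : Fin N, 2 * g * (normSq Ψ - con Ψ i / Fintype.card V) ≤ ∑ i, kin T Ψ i :=
    sum_le_sum fun i _ => key i
  rw [← mul_sum, sum_sub_distrib, sum_const, card_univ, Fintype.card_fin, nsmul_eq_mul,
    ← sum_div, ← condensate_eq] at h4
  rw [kinetic_eq]
  linarith

theorem kinetic_nonneg {T : V → V → ℝ} (hT : ∀ x y, 0 ≤ T x y) (Ψ : WF V N) :
    0 ≤ kinetic T Ψ := by
  unfold kinetic
  refine mul_nonneg (by norm_num) (sum_nonneg fun i _ => sum_nonneg fun X _ =>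
    sum_nonneg fun y _ => mul_nonneg (hT _ _) (by positivity))

end Pool.Agent.U240.BG
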