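import Pool.Agent.U240.BG.Trial
import Pool.Agent.U240.BG.Ent

/-!
# Condensation on graphs with a spectral gap
-/

set_option autoImplicit false
set_option linter.unusedSectionVars false

namespace Pool.Agent.U240.BG

open Finset Function
open scoped ENNReal ComplexConjugate

variable {V : Type} [Fintype V] [DecidableEq V] {N : ℕ}

/-- energy and condensate -/
theorem condensate_of_energy {T : V → V → ℝ} {τ g : ℝ} (hG : Graph T τ g) (hg : 0 < g)
    (hV : 0 < Fintype.card V) {v : V → V → ℝ≥0∞} {Ψ : WF V N} (hΨ : normSq Ψ = 1) {E : ℝ}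
    (hE : 0 ≤ E) (h : energy T v Ψ ≤ ENNReal.ofReal E) : (N : ℝ) - E / g ≤ condensate Ψ := by
  have h1 : kinetic T Ψ ≤ E := by
    have h2 : ENNReal.ofReal (kinetic T Ψ) ≤ ENNReal.ofReal E := le_self_add.trans h
    exact (ENNReal.ofReal_le_ofReal_iff hE).1 h2
  have h2 := kinetic_lower hG.gap hV Ψ
  rw [hΨ, mul_one] at h2
  have h3 : (N : ℝ) - condensate Ψ ≤ E / g := by
    rw [le_div_iff₀ hg]
    linarith
  linarith

/-- energy and condensate of mixed states -/
theorem mixed_condensate {T : V → V → ℝ} {τ g : ℝ} (hG : Graph T τ g) (hg : 0 < g)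
    (hV : 0 < Fintype.card V) {v : V → V → ℝ≥0∞} (D : Mixed V N) {E : ℝ}
    (hE : 0 ≤ E) (h : D.energy T v ≤ ENNReal.ofReal E) : (N : ℝ) - E / g ≤ D.condensate := by
  have h1 : ∑ k, D.p k * kinetic T (D.ψ k) ≤ E := by
    have h2 : ENNReal.ofReal (∑ k, D.p k * kinetic T (D.ψ k)) ≤ ENNReal.ofReal E := by
      refine le_trans ?_ h
      rw [ENNReal.ofReal_sum_of_nonneg
        (fun k _ => mul_nonneg (D.nonneg k) (kinetic_nonneg hG.nonneg _))]
      refine sum_le_sum fun k _ => ?_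
      rw [ENNReal.ofReal_mul (D.nonneg k)]
      exact mul_le_mul_right le_self_add _
    exact (ENNReal.ofReal_le_ofReal_iff hE).1 h2
  have h2 : ∀ k, D.p k * (g * (N - condensate (D.ψ k))) ≤ D.p k * kinetic T (D.ψ k) := by
    intro k
    have h3 := kinetic_lower hG.gap hV (D.ψ k)
    rw [norm_mixed, mul_one] at h3
    exact mul_le_mul_of_nonneg_left h3 (D.nonneg k)
  have h3 : ∑ k, D.p k * (g * (N - condensate (D.ψ k))) = g * (N - D.condensate) := by
    unfold Mixed.condensate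
    have h4 : ∀ k, D.p k * (g * (N - condensate (D.ψ k))) =
        g * N * D.p k - g * (D.p k * condensate (D.ψ k)) := fun k => by ring
    rw [sum_congr rfl fun k _ => h4 k, sum_sub_distrib, ← mul_sum, ← mul_sum, D.sum]
    ring
  have h4 : g * (N - D.condensate) ≤ E := by
    rw [← h3]
    exact (sum_le_sum fun k _ => h2 k).trans h1
  have h5 : (N : ℝ) - D.condensate ≤ E / g := by
    rw [le_div_iff₀ hg]
    linarith
  linarith

/-- near ground states -/
theorem ground {T : V → V → ℝ} {τ g : ℝ} (hG : Graph T τ g) (hg : 0 < g)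
    {v : V → V → ℝ≥0∞} {b : ℕ} {w : ℝ} (hw : 0 ≤ w) (hv : Interaction v b w)
    (hN : 1 ≤ N) (hb : ((N : ℝ) - 1) * b < Fintype.card V) {δ : ℝ} (hδ : 0 ≤ δ)
    {Ψ : WF V N} (hn : normSq Ψ = 1)
    (hmin : ∀ Φ : WF V N, IsSymm Φ → normSq Φ = 1 →
      energy T v Ψ ≤ energy T v Φ + ENNReal.ofReal (δ * N)) :
    (N : ℝ) * (1 - ((N - 1) * (b * τ + w / 2) / (Fintype.card V - (N - 1) * b) + δ) / g) ≤
      condensate Ψ := by
  have hN' : (1 : ℝ) ≤ N := by exact_mod_cast hN
  have hb0 : (0 : ℝ) ≤ ((N : ℝ) - 1) * b := mul_nonneg (by linarith) (Nat.cast_nonneg _)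
  have hV : 0 < Fintype.card V := by
    have : (0 : ℝ) < Fintype.card V := lt_of_le_of_lt hb0 hb
    exact_mod_cast this
  have hτ : 0 ≤ τ := by
    obtain ⟨x⟩ := Fintype.card_pos_iff.1 hV
    exact (sum_nonneg fun y _ => hG.nonneg x y).trans (hG.deg x)
  have hbn : (N - 1) * b < Fintype.card V := by
    have h1 : (((N - 1) * b : ℕ) : ℝ) < Fintype.card V := by
      rw [Nat.cast_mul, Nat.cast_sub hN, Nat.cast_one]
      exact hb
    exact_mod_cast h1
  have hA := exists_alw hv N hbn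
  have hD : 0 < (Fintype.card V : ℝ) - (N - 1) * b := by linarith
  have h1 := hmin (trial v N) (trial_symm v N) (trial_norm hA)
  have h2 := energy_trial hG hw hv hA hD
  have hE0 : 0 ≤ (N : ℝ) * (N - 1) * (b * τ + w / 2) / ((Fintype.card V : ℝ) - (N - 1) * b) := by
    refine div_nonneg (mul_nonneg (mul_nonneg (by linarith) (by linarith)) ?_) hD.le
    have : 0 ≤ (b : ℝ) * τ := mul_nonneg (Nat.cast_nonneg _) hτ
    linarith
  have h3 : energy T v Ψ ≤ ENNReal.ofReal
      (N * (N - 1) * (b * τ + w / 2) / ((Fintype.card V : ℝ) - (N - 1) * b) + δ * N) := by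
    rw [ENNReal.ofReal_add hE0 (mul_nonneg hδ (by linarith))]
    exact h1.trans (add_le_add_left h2 _)
  have h4 := condensate_of_energy hG hg hV hn (add_nonneg hE0 (mul_nonneg hδ (by linarith))) h3
  refine le_trans (le_of_eq ?_) h4
  field_simp

/-- near equilibrium states -/
theorem equilibrium {T : V → V → ℝ} {τ g : ℝ} (hG : Graph T τ g) (hg : 0 < g)
    {v : V → V → ℝ≥0∞} {b : ℕ} {w : ℝ} (hw : 0 ≤ w) (hv : Interaction v b w)
    (hN : 1 ≤ N) (hb : ((N : ℝ) - 1) * b < Fintype.card V) {θ δ : ℝ} (hθ : 0 ≤ θ) (hδ : 0 ≤ δ)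
    {D : Mixed V N} (hmin : NearEquilibrium T v θ (δ * N) D) :
    (N : ℝ) * (1 - ((N - 1) * (b * τ + w / 2) / (Fintype.card V - (N - 1) * b) +
      θ * (1 + Real.log (1 + Fintype.card V / N)) + δ) / g) ≤ D.condensate := by
  have hN' : (1 : ℝ) ≤ N := by exact_mod_cast hN
  have hb0 : (0 : ℝ) ≤ ((N : ℝ) - 1) * b := mul_nonneg (by linarith) (Nat.cast_nonneg _)
  have hV : 0 < Fintype.card V := by
    have : (0 : ℝ) < Fintype.card V := lt_of_le_of_lt hb0 hb
    exact_mod_cast this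
  have hτ : 0 ≤ τ := by
    obtain ⟨x⟩ := Fintype.card_pos_iff.1 hV
    exact (sum_nonneg fun y _ => hG.nonneg x y).trans (hG.deg x)
  have hbn : (N - 1) * b < Fintype.card V := by
    have h1 : (((N - 1) * b : ℕ) : ℝ) < Fintype.card V := by
      rw [Nat.cast_mul, Nat.cast_sub hN, Nat.cast_one]
      exact hb
    exact_mod_cast h1
  have hA := exists_alw hv N hbn
  have hD : 0 < (Fintype.card V : ℝ) - (N - 1) * b := by linarith
  have h1 := hmin (pure (trial v N) (trial_symm v N) (trial_norm hA))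
  rw [pure_entropy, pure_energy, mul_zero, ENNReal.ofReal_zero, add_zero] at h1
  have h2 := energy_trial hG hw hv hA hD
  have hE0 : 0 ≤ (N : ℝ) * (N - 1) * (b * τ + w / 2) / ((Fintype.card V : ℝ) - (N - 1) * b) := by
    refine div_nonneg (mul_nonneg (mul_nonneg (by linarith) (by linarith)) ?_) hD.le
    have : 0 ≤ (b : ℝ) * τ := mul_nonneg (Nat.cast_nonneg _) hτ
    linarith
  have hS := entropy_le D hV hN
  have hS0 := entropy_nonneg D
  have hlog : 0 ≤ Real.log (1 + (Fintype.card V : ℝ) / N) := by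
    apply Real.log_nonneg
    have : (0 : ℝ) ≤ (Fintype.card V : ℝ) / N := by positivity
    linarith
  have hX : 0 ≤ θ * (N * (1 + Real.log (1 + (Fintype.card V : ℝ) / N))) + δ * N := by
    positivity
  have h3 : D.energy T v ≤ ENNReal.ofReal
      (N * (N - 1) * (b * τ + w / 2) / ((Fintype.card V : ℝ) - (N - 1) * b) +
        (θ * (N * (1 + Real.log (1 + (Fintype.card V : ℝ) / N))) + δ * N)) := by
    rw [ENNReal.ofReal_add hE0 hX]
    refine h1.trans (add_le_add h2 (ENNReal.ofReal_le_ofReal ?_))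
    have := mul_le_mul_of_nonneg_left hS hθ
    linarith
  have h4 := mixed_condensate hG hg hV D (add_nonneg hE0 hX) h3
  refine le_trans (le_of_eq ?_) h4
  field_simp
  ring

end Pool.Agent.U240.BG
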