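import Pool.Agent.U240.BG.Low

/-!
# The trial state: the uniform superposition of the allowed configurations
-/

set_option autoImplicit false
set_option linter.unusedSectionVars false

namespace Pool.Agent.U240.BG

open Finset Function
open scoped ENNReal ComplexConjugate

variable {V : Type} [Fintype V] [DecidableEq V] {N : ℕ}

/-- the allowed configurations -/
noncomputable def Alw (v : V → V → ℝ≥0∞) (N : ℕ) : Finset (Fin N → V) := by
  classical exact univ.filter (fun X : Fin N → V => ∀ i j, i ≠ j → v (X i) (X j) ≠ ⊤)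

theorem mem_Alw {v : V → V → ℝ≥0∞} {X : Fin N → V} :
    X ∈ Alw v N ↔ ∀ i j, i ≠ j → v (X i) (X j) ≠ ⊤ := by
  classical
  unfold Alw
  simp

/-- the configurations which are allowed up to the position of the `i`-th particle -/
noncomputable def Alx (v : V → V → ℝ≥0∞) (i : Fin N) : Finset (Fin N → V) := by
  classical exact univ.filter (fun X : Fin N → V => ∀ j k, j ≠ k → j ≠ i → k ≠ i →
    v (X j) (X k) ≠ ⊤)

theorem mem_Alx {v : V → V → ℝ≥0∞} {i : Fin N} {X : Fin N → V} :
    X ∈ Alx v i ↔ ∀ j k, j ≠ k → j ≠ i → k ≠ i → v (X j) (X k) ≠ ⊤ := by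
  classical
  unfold Alx
  simp

/-- the points excluded by the other particles -/
noncomputable def bad (v : V → V → ℝ≥0∞) (i : Fin N) (X : Fin N → V) : Finset V :=
  (univ.erase i).biUnion fun j => univ.filter (fun y => v (X j) y = ⊤)

theorem card_bad {v : V → V → ℝ≥0∞} {b : ℕ} {w : ℝ} (hv : Interaction v b w) (i : Fin N)
    (X : Fin N → V) : (bad v i X).card ≤ (N - 1) * b := by
  refine card_biUnion_le.trans ?_
  calc ∑ j ∈ univ.erase i, (univ.filter (fun y => v (X j) y = ⊤)).card
      ≤ ∑ j ∈ univ.erase i, b := sum_le_sum fun j _ => hv.excl _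
    _ = (N - 1) * b := by
        rw [sum_const, card_erase_of_mem (mem_univ _), card_univ, Fintype.card_fin, smul_eq_mul]

theorem update_mem {v : V → V → ℝ≥0∞} {b : ℕ} {w : ℝ} (hv : Interaction v b w) (i : Fin N)
    (X : Fin N → V) (x : V) : update X i x ∈ Alw v N ↔ X ∈ Alx v i ∧ x ∉ bad v i X := by
  rw [mem_Alw, mem_Alx]
  constructor
  · intro h
    refine ⟨fun j k hjk hj hk => ?_, ?_⟩
    · have := h j k hjk
      rwa [update_of_ne hj, update_of_ne hk] at this
    · intro hx
      rw [bad, mem_biUnion] at hx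
      obtain ⟨j, hj, hx⟩ := hx
      rw [mem_filter] at hx
      have hji := ne_of_mem_erase hj
      have := h j i hji
      rw [update_of_ne hji, update_self] at this
      exact this hx.2
  · rintro ⟨h1, h2⟩ j k hjk
    rcases eq_or_ne j i with rfl | hj
    · rw [update_self, update_of_ne hjk.symm]
      intro h
      apply h2
      rw [bad, mem_biUnion]
      exact ⟨k, mem_erase.2 ⟨hjk.symm, mem_univ _⟩, mem_filter.2 ⟨mem_univ _, by rw [hv.symm, h]⟩⟩
    · rcases eq_or_ne k i with rfl | hk
      · rw [update_self, update_of_ne hjk]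
        intro h
        apply h2
        rw [bad, mem_biUnion]
        exact ⟨j, mem_erase.2 ⟨hjk, mem_univ _⟩, mem_filter.2 ⟨mem_univ _, h⟩⟩
      · rw [update_of_ne hj, update_of_ne hk]
        exact h1 j k hjk hj hk

/-- there are allowed configurations -/
theorem exists_alw {v : V → V → ℝ≥0∞} {b : ℕ} {w : ℝ} (hv : Interaction v b w) (N : ℕ) :
    (N - 1) * b < Fintype.card V → (Alw v N).Nonempty := by
  induction N with
  | zero =>
    intro _
    exact ⟨fun i => i.elim0, mem_Alw.2 fun i => i.elim0⟩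
  | succ N ih =>
    intro h
    obtain ⟨X, hX⟩ := ih (lt_of_le_of_lt (Nat.mul_le_mul_right _ (by omega)) h)
    have hcard : (univ.biUnion fun j : Fin N => univ.filter (fun y => v (X j) y = ⊤)).card <
        (univ : Finset V).card := by
      refine lt_of_le_of_lt card_biUnion_le ?_
      calc ∑ j : Fin N, (univ.filter (fun y => v (X j) y = ⊤)).card
          ≤ ∑ j : Fin N, b := sum_le_sum fun j _ => hv.excl _
        _ = N * b := by simp
        _ < _ := by simpa using h
    obtain ⟨x, -, hx⟩ := exists_mem_notMem_of_card_lt_card hcard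
    have hx' : ∀ j, v (X j) x ≠ ⊤ := by
      intro j hj
      apply hx
      rw [mem_biUnion]
      exact ⟨j, mem_univ _, mem_filter.2 ⟨mem_univ _, hj⟩⟩
    refine ⟨Fin.cons x X, mem_Alw.2 ?_⟩
    intro i j hij
    induction i using Fin.cases with
    | zero =>
      induction j using Fin.cases with
      | zero => exact absurd rfl hij
      | succ j =>
        rw [Fin.cons_zero, Fin.cons_succ, hv.symm]
        exact hx' j
    | succ i =>
      induction j using Fin.cases with
      | zero =>
        rw [Fin.cons_zero, Fin.cons_succ]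
        exact hx' i
      | succ j =>
        rw [Fin.cons_succ, Fin.cons_succ]
        exact mem_Alw.1 hX i j fun h => hij (by rw [h])

/-- the ratio of the numbers of configurations -/
theorem card_ratio {v : V → V → ℝ≥0∞} {b : ℕ} {w : ℝ} (hv : Interaction v b w) (i : Fin N) :
    ((Alx v i).card : ℝ) * ((Fintype.card V : ℝ) - (N - 1) * b) ≤
      (Fintype.card V : ℝ) * (Alw v N).card := by
  have h := avg i (fun X : Fin N → V => if X ∈ Alw v N then (1 : ℝ) else 0)
  rw [sum_ite_mem, univ_inter, sum_const, nsmul_eq_mul, nsmul_eq_mul, mul_one] at h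
  rw [← h, card_eq_sum_ones, Nat.cast_sum, sum_mul]
  have h2 : ∑ X ∈ Alx v i, ((1 : ℕ) : ℝ) * ((Fintype.card V : ℝ) - (N - 1) * b) ≤
      ∑ X ∈ Alx v i, ∑ x : V, (if update X i x ∈ Alw v N then (1 : ℝ) else 0) := by
    refine sum_le_sum fun X hX => ?_
    rw [Nat.cast_one, one_mul]
    have h3 : ∑ x : V, (if update X i x ∈ Alw v N then (1 : ℝ) else 0) =
        ((univ \ bad v i X).card : ℝ) := by
      rw [← sum_filter, sum_const, nsmul_eq_mul, mul_one]
      congr 2
      ext x
      rw [mem_filter, mem_sdiff, update_mem hv]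
      exact ⟨fun h => ⟨h.1, h.2.2⟩, fun h => ⟨h.1, hX, h.2⟩⟩
    rw [h3, card_sdiff_of_subset (subset_univ _), card_univ,
      Nat.cast_sub (card_le_univ (bad v i X))]
    have h4 : ((bad v i X).card : ℝ) ≤ ((N : ℝ) - 1) * b := by
      have h5 : ((bad v i X).card : ℝ) ≤ (((N - 1) * b : ℕ) : ℝ) := by
        exact_mod_cast card_bad hv i X
      have hN : 1 ≤ N := by
        have := i.isLt
        omega
      rw [Nat.cast_mul, Nat.cast_sub hN, Nat.cast_one] at h5
      exact h5
    linarith
  refine h2.trans (sum_le_univ_sum_of_nonneg fun X => sum_nonneg fun x _ => ?_)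
  split_ifs <;> norm_num

/-- the trial state -/
noncomputable def trial (v : V → V → ℝ≥0∞) (N : ℕ) : WF V N := fun X =>
  if X ∈ Alw v N then (((Real.sqrt (Alw v N).card)⁻¹ : ℝ) : ℂ) else 0

theorem norm_trial (v : V → V → ℝ≥0∞) (X : Fin N → V) :
    ‖trial v N X‖ ^ 2 = if X ∈ Alw v N then ((Alw v N).card : ℝ)⁻¹ else 0 := by
  unfold trial
  split_ifs with h
  · rw [Complex.norm_real, Real.norm_eq_abs, sq_abs, inv_pow, Real.sq_sqrt (Nat.cast_nonneg _)]
  · simp

theorem trial_symm (v : V → V → ℝ≥0∞) (N : ℕ) : IsSymm (trial v N) := by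
  intro σ X
  have h : X ∘ σ ∈ Alw v N ↔ X ∈ Alw v N := by
    rw [mem_Alw, mem_Alw]
    constructor
    · intro h i j hij
      have := h (σ.symm i) (σ.symm j) (fun h => hij (σ.symm.injective h))
      simpa using this
    · intro h i j hij
      exact h (σ i) (σ j) (fun h => hij (σ.injective h))
  unfold trial
  simp only [h]

theorem trial_norm {v : V → V → ℝ≥0∞} (h : (Alw v N).Nonempty) : normSq (trial v N) = 1 := by
  unfold normSq
  simp only [norm_trial]
  rw [sum_ite_mem, univ_inter, sum_const, nsmul_eq_mul]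
  have : (0 : ℝ) < (Alw v N).card := by exact_mod_cast h.card_pos
  field_simp

theorem diff_trial (v : V → V → ℝ≥0∞) (X Y : Fin N → V) :
    ‖trial v N Y - trial v N X‖ ^ 2 ≤ ((Alw v N).card : ℝ)⁻¹ *
      ((if X ∈ Alw v N ∧ Y ∉ Alw v N then 1 else 0) +
        (if Y ∈ Alw v N ∧ X ∉ Alw v N then 1 else 0)) := by
  have hX := norm_trial v X
  have hY := norm_trial v Y
  by_cases h1 : X ∈ Alw v N
  · by_cases h2 : Y ∈ Alw v N
    · have : trial v N Y = trial v N X := by
        unfold trial
        rw [if_pos h1, if_pos h2]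
      rw [this]
      simp [h1, h2]
    · have : trial v N Y = 0 := by
        unfold trial
        rw [if_neg h2]
      rw [this, zero_sub, norm_neg, hX]
      simp [h1, h2]
  · by_cases h2 : Y ∈ Alw v N
    · have : trial v N X = 0 := by
        unfold trial
        rw [if_neg h1]
      rw [this, sub_zero, hY]
      simp [h1, h2]
    · have h3 : trial v N X = 0 := by
        unfold trial
        rw [if_neg h1]
      have h4 : trial v N Y = 0 := by
        unfold trial
        rw [if_neg h2]
      rw [h3, h4]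
      simp [h1, h2]

/-- the kinetic energy of one particle in the trial state, before the count -/
theorem kin_trial_aux {T : V → V → ℝ} (hT : ∀ x y, 0 ≤ T x y) (hs : ∀ x y, T x y = T y x)
    (v : V → V → ℝ≥0∞) (i : Fin N) :
    (Fintype.card V : ℝ) * kin T (trial v N) i ≤ 2 * ((Alw v N).card : ℝ)⁻¹ *
      ∑ X : Fin N → V, ∑ x, ∑ y, T x y *
        (if update X i x ∈ Alw v N ∧ update X i y ∉ Alw v N then 1 else 0) := by
  rw [kin_avg]
  have h1 : ∑ X : Fin N → V, ∑ x, ∑ y,
      T x y * ‖trial v N (update X i y) - trial v N (update X i x)‖ ^ 2 ≤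
      ∑ X : Fin N → V, ∑ x, ∑ y, (((Alw v N).card : ℝ)⁻¹ * (T x y *
        (if update X i x ∈ Alw v N ∧ update X i y ∉ Alw v N then 1 else 0)) +
        ((Alw v N).card : ℝ)⁻¹ * (T x y *
        (if update X i y ∈ Alw v N ∧ update X i x ∉ Alw v N then 1 else 0))) := by
    refine sum_le_sum fun X _ => sum_le_sum fun x _ => sum_le_sum fun y _ => ?_
    refine (mul_le_mul_of_nonneg_left (diff_trial v _ _) (hT x y)).trans (le_of_eq ?_)
    ring
  refine h1.trans (le_of_eq ?_)
  have h2 : ∀ X : Fin N → V, ∑ x, ∑ y, T x y *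
        (if update X i y ∈ Alw v N ∧ update X i x ∉ Alw v N then (1 : ℝ) else 0) =
      ∑ x, ∑ y, T x y *
        (if update X i x ∈ Alw v N ∧ update X i y ∉ Alw v N then (1 : ℝ) else 0) := by
    intro X
    rw [sum_comm]
    refine sum_congr rfl fun x _ => sum_congr rfl fun y _ => ?_
    rw [hs]
  simp only [sum_add_distrib, ← mul_sum, h2]
  ring

/-- the kinetic energy of one particle in the trial state -/
theorem kin_trial {T : V → V → ℝ} {τ g : ℝ} (hG : Graph T τ g) {v : V → V → ℝ≥0∞} {b : ℕ} {w : ℝ}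
    (hv : Interaction v b w) (h : (Alw v N).Nonempty) (i : Fin N)
    (hD : 0 < (Fintype.card V : ℝ) - (N - 1) * b) :
    kin T (trial v N) i ≤ 2 * (((N : ℝ) - 1) * b * τ) / ((Fintype.card V : ℝ) - (N - 1) * b) := by
  have hA : (0 : ℝ) < (Alw v N).card := by exact_mod_cast h.card_pos
  have hN : 1 ≤ N := by
    have := i.isLt
    omega
  have hN' : (1 : ℝ) ≤ N := by exact_mod_cast hN
  have hn : (0 : ℝ) < Fintype.card V := by
    have : (0 : ℝ) ≤ ((N : ℝ) - 1) * b := mul_nonneg (by linarith) (Nat.cast_nonneg _)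
    linarith
  have hτ : 0 ≤ τ := by
    have : 0 < Fintype.card V := by exact_mod_cast hn
    obtain ⟨x⟩ := Fintype.card_pos_iff.1 this
    exact (sum_nonneg fun y _ => hG.nonneg x y).trans (hG.deg x)
  have h1 := kin_trial_aux hG.nonneg hG.symm v i
  have h2 : ∑ X : Fin N → V, ∑ x, ∑ y, T x y *
        (if update X i x ∈ Alw v N ∧ update X i y ∉ Alw v N then (1 : ℝ) else 0) ≤
      ∑ X ∈ Alx v i, (((N : ℝ) - 1) * b * τ) := by
    rw [← sum_subset (subset_univ (Alx v i))]
    · refine sum_le_sum fun X hX => ?_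
      rw [sum_comm]
      calc ∑ y, ∑ x, T x y *
            (if update X i x ∈ Alw v N ∧ update X i y ∉ Alw v N then (1 : ℝ) else 0)
          ≤ ∑ y, if y ∈ bad v i X then τ else 0 := by
            refine sum_le_sum fun y _ => ?_
            by_cases hy : y ∈ bad v i X
            · rw [if_pos hy]
              refine (sum_le_sum fun x _ => ?_).trans (hG.deg y)
              rw [hG.symm y x]
              refine mul_le_of_le_one_right (hG.nonneg _ _) ?_
              split_ifs <;> norm_num
            · rw [if_neg hy]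
              refine (sum_eq_zero fun x _ => ?_).le
              rw [if_neg, mul_zero]
              rintro ⟨-, h4⟩
              exact h4 ((update_mem hv i X y).2 ⟨hX, hy⟩)
        _ = (bad v i X).card * τ := by
            rw [sum_ite_mem, univ_inter, sum_const, nsmul_eq_mul]
        _ ≤ ((N : ℝ) - 1) * b * τ := by
            refine mul_le_mul_of_nonneg_right ?_ hτ
            have h5 : ((bad v i X).card : ℝ) ≤ (((N - 1) * b : ℕ) : ℝ) := by
              exact_mod_cast card_bad hv i X
            rw [Nat.cast_mul, Nat.cast_sub hN, Nat.cast_one] at h5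
            exact h5
    · intro X _ hX
      refine sum_eq_zero fun x _ => sum_eq_zero fun y _ => ?_
      rw [if_neg, mul_zero]
      rintro ⟨h4, -⟩
      exact hX ((update_mem hv i X x).1 h4).1
  rw [sum_const, nsmul_eq_mul] at h2
  have h3 := card_ratio hv i
  have h0 : 0 ≤ ((N : ℝ) - 1) * b * τ :=
    mul_nonneg (mul_nonneg (by linarith) (Nat.cast_nonneg _)) hτ
  rw [le_div_iff₀ hD]
  have h4 : (Fintype.card V : ℝ) * kin T (trial v N) i ≤
      2 * ((Alw v N).card : ℝ)⁻¹ * ((Alx v i).card * (((N : ℝ) - 1) * b * τ)) :=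
    h1.trans (mul_le_mul_of_nonneg_left h2 (by positivity))
  have h5 : (Fintype.card V : ℝ) * kin T (trial v N) i * ((Fintype.card V : ℝ) - (N - 1) * b) ≤
      2 * ((Alw v N).card : ℝ)⁻¹ * (((N : ℝ) - 1) * b * τ) *
        ((Fintype.card V : ℝ) * (Alw v N).card) := by
    calc (Fintype.card V : ℝ) * kin T (trial v N) i * ((Fintype.card V : ℝ) - (N - 1) * b)
        ≤ 2 * ((Alw v N).card : ℝ)⁻¹ * ((Alx v i).card * (((N : ℝ) - 1) * b * τ)) *
          ((Fintype.card V : ℝ) - (N - 1) * b) := mul_le_mul_of_nonneg_right h4 hD.le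
      _ = 2 * ((Alw v N).card : ℝ)⁻¹ * (((N : ℝ) - 1) * b * τ) *
          (((Alx v i).card : ℝ) * ((Fintype.card V : ℝ) - (N - 1) * b)) := by ring
      _ ≤ _ := mul_le_mul_of_nonneg_left h3 (by positivity)
  have h6 : 2 * ((Alw v N).card : ℝ)⁻¹ * (((N : ℝ) - 1) * b * τ) *
        ((Fintype.card V : ℝ) * (Alw v N).card) =
      (Fintype.card V : ℝ) * (2 * (((N : ℝ) - 1) * b * τ)) := by
    field_simp
  rw [h6, mul_assoc] at h5
  exact le_of_mul_le_mul_left h5 hn

/-- the mean of the interaction of two particles in the trial state -/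
theorem pair_trial {v : V → V → ℝ≥0∞} {b : ℕ} {w : ℝ} (hw : 0 ≤ w)
    (hv : Interaction v b w) (h : (Alw v N).Nonempty) (i j : Fin N) (hij : i ≠ j)
    (hD : 0 < (Fintype.card V : ℝ) - (N - 1) * b) :
    ((Alw v N).card : ℝ)⁻¹ * ∑ X ∈ Alw v N, (v (X i) (X j)).toReal ≤
      w / ((Fintype.card V : ℝ) - (N - 1) * b) := by
  have hA : (0 : ℝ) < (Alw v N).card := by exact_mod_cast h.card_pos
  have hN : 1 ≤ N := by
    have := i.isLt
    omega
  have hN' : (1 : ℝ) ≤ N := by exact_mod_cast hN
  have hn : (0 : ℝ) < Fintype.card V := by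
    have : (0 : ℝ) ≤ ((N : ℝ) - 1) * b := mul_nonneg (by linarith) (Nat.cast_nonneg _)
    linarith
  have h1 := avg i (fun X : Fin N → V => if X ∈ Alw v N then (v (X i) (X j)).toReal else 0)
  rw [sum_ite_mem, univ_inter, nsmul_eq_mul] at h1
  have h2 : ∑ X : Fin N → V, ∑ x, (if update X i x ∈ Alw v N then
      (v (update X i x i) (update X i x j)).toReal else 0) ≤ ∑ X ∈ Alx v i, w := by
    rw [← sum_subset (subset_univ (Alx v i))]
    · refine sum_le_sum fun X _ => ?_
      calc ∑ x, (if update X i x ∈ Alw v N then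
            (v (update X i x i) (update X i x j)).toReal else 0)
          ≤ ∑ x, (v (X j) x).toReal := by
            refine sum_le_sum fun x _ => ?_
            split_ifs
            · rw [update_self, update_of_ne hij.symm, hv.symm]
            · exact ENNReal.toReal_nonneg
        _ = ∑ x ∈ univ.filter (fun y => v (X j) y ≠ ⊤), (v (X j) x).toReal := by
            symm
            refine sum_subset (subset_univ _) fun x _ hx => ?_
            rw [mem_filter, not_and, not_not] at hx
            rw [hx (mem_univ _)]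
            rfl
        _ ≤ w := hv.fin _
    · intro X _ hX
      refine sum_eq_zero fun x _ => ?_
      rw [if_neg]
      intro h4
      exact hX ((update_mem hv i X x).1 h4).1
  rw [h1, sum_const, nsmul_eq_mul] at h2
  have h3 := card_ratio hv i
  rw [le_div_iff₀ hD]
  have h4 : (Fintype.card V : ℝ) * ((∑ X ∈ Alw v N, (v (X i) (X j)).toReal) *
      ((Fintype.card V : ℝ) - (N - 1) * b)) ≤
      (Fintype.card V : ℝ) * ((Alw v N).card * w) := by
    calc _ = (Fintype.card V : ℝ) * (∑ X ∈ Alw v N, (v (X i) (X j)).toReal) *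
          ((Fintype.card V : ℝ) - (N - 1) * b) := by ring
      _ ≤ ((Alx v i).card * w) * ((Fintype.card V : ℝ) - (N - 1) * b) :=
          mul_le_mul_of_nonneg_right h2 hD.le
      _ = (((Alx v i).card : ℝ) * ((Fintype.card V : ℝ) - (N - 1) * b)) * w := by ring
      _ ≤ _ := by
          refine (mul_le_mul_of_nonneg_right h3 hw).trans (le_of_eq ?_)
          ring
  have h5 := le_of_mul_le_mul_left h4 hn
  calc _ = ((Alw v N).card : ℝ)⁻¹ * ((∑ X ∈ Alw v N, (v (X i) (X j)).toReal) *
      ((Fintype.card V : ℝ) - (N - 1) * b)) := by ring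
    _ ≤ ((Alw v N).card : ℝ)⁻¹ * ((Alw v N).card * w) :=
        mul_le_mul_of_nonneg_left h5 (by positivity)
    _ = w := by field_simp

/-- the number of pairs -/
theorem card_pairs (N : ℕ) : ∑ i : Fin N, ∑ _j ∈ univ.filter (fun j => i < j), (1 : ℝ) =
    (N : ℝ) * (N - 1) / 2 := by
  have h1 : ∀ N : ℕ, ∑ i : Fin N, ∑ _j ∈ univ.filter (fun j => i < j), (1 : ℝ) =
      ∑ i : Fin N, ∑ _j ∈ univ.filter (fun j => j < i), (1 : ℝ) := by
    intro N
    simp only [sum_filter]
    exact sum_comm
  have h2 : ∑ i : Fin N, ∑ _j ∈ univ.filter (fun j => i < j), (1 : ℝ) +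
      ∑ i : Fin N, ∑ _j ∈ univ.filter (fun j => j < i), (1 : ℝ) = (N : ℝ) * (N - 1) := by
    rw [← sum_add_distrib]
    have h3 : ∀ i : Fin N, ∑ _j ∈ univ.filter (fun j => i < j), (1 : ℝ) +
        ∑ _j ∈ univ.filter (fun j => j < i), (1 : ℝ) = (N : ℝ) - 1 := by
      intro i
      have h4 : ∑ j : Fin N, (1 : ℝ) = ∑ _j ∈ univ.filter (fun j => i < j), (1 : ℝ) +
          ∑ _j ∈ univ.filter (fun j => j < i), (1 : ℝ) + 1 := by
        have h5 : ∀ j : Fin N, (1 : ℝ) = (if i < j then 1 else 0) + (if j < i then 1 else 0) +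
            (if j = i then 1 else 0) := by
          intro j
          rcases lt_trichotomy i j with h | h | h
          · rw [if_pos h, if_neg h.not_gt, if_neg h.ne']; ring
          · subst h; simp
          · rw [if_neg h.not_gt, if_pos h, if_neg h.ne]; ring
        rw [sum_congr rfl fun j _ => h5 j, sum_add_distrib, sum_add_distrib, sum_filter, sum_filter]
        simp
      rw [sum_const, card_univ, Fintype.card_fin, nsmul_eq_mul, mul_one] at h4
      linarith
    rw [sum_congr rfl fun i _ => h3 i, sum_const, card_univ, Fintype.card_fin, nsmul_eq_mul]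
  rw [← h1] at h2
  linarith

/-- **the energy of the trial state** -/
theorem energy_trial {T : V → V → ℝ} {τ g : ℝ} (hG : Graph T τ g) {v : V → V → ℝ≥0∞} {b : ℕ}
    {w : ℝ} (hw : 0 ≤ w) (hv : Interaction v b w) (h : (Alw v N).Nonempty)
    (hD : 0 < (Fintype.card V : ℝ) - (N - 1) * b) :
    energy T v (trial v N) ≤ ENNReal.ofReal
      (N * (N - 1) * (b * τ + w / 2) / ((Fintype.card V : ℝ) - (N - 1) * b)) := by
  have hA : (0 : ℝ) < (Alw v N).card := by exact_mod_cast h.card_pos
  have hkin : kinetic T (trial v N) ≤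
      N * (N - 1) * (b * τ) / ((Fintype.card V : ℝ) - (N - 1) * b) := by
    rw [kinetic_eq]
    have h1 : ∑ i : Fin N, kin T (trial v N) i ≤ ∑ i : Fin N,
        2 * (((N : ℝ) - 1) * b * τ) / ((Fintype.card V : ℝ) - (N - 1) * b) :=
      sum_le_sum fun i _ => kin_trial hG hv h i hD
    rw [sum_const, card_univ, Fintype.card_fin, nsmul_eq_mul] at h1
    calc 1 / 2 * ∑ i : Fin N, kin T (trial v N) i ≤ 1 / 2 * (N *
          (2 * (((N : ℝ) - 1) * b * τ) / ((Fintype.card V : ℝ) - (N - 1) * b))) := by linarith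
      _ = _ := by ring
  have hpot : potential v (trial v N) = ENNReal.ofReal (∑ i : Fin N,
      ∑ j ∈ univ.filter (fun j => i < j),
        ((Alw v N).card : ℝ)⁻¹ * ∑ X ∈ Alw v N, (v (X i) (X j)).toReal) := by
    have h1 : potential v (trial v N) = ∑ X ∈ Alw v N, ENNReal.ofReal
        ((∑ i : Fin N, ∑ j ∈ univ.filter (fun j => i < j), (v (X i) (X j)).toReal) *
          ((Alw v N).card : ℝ)⁻¹) := by
      unfold potential
      rw [← sum_subset (subset_univ (Alw v N))]
      · refine sum_congr rfl fun X hX => ?_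
        rw [norm_trial, if_pos hX, ENNReal.ofReal_mul
          (sum_nonneg fun i _ => sum_nonneg fun j _ => ENNReal.toReal_nonneg)]
        congr 1
        rw [ENNReal.ofReal_sum_of_nonneg
          (fun i _ => sum_nonneg fun j _ => ENNReal.toReal_nonneg)]
        refine sum_congr rfl fun i _ => ?_
        rw [ENNReal.ofReal_sum_of_nonneg (fun j _ => ENNReal.toReal_nonneg)]
        refine sum_congr rfl fun j hj => ?_
        rw [mem_filter] at hj
        rw [ENNReal.ofReal_toReal (mem_Alw.1 hX i j hj.2.ne)]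
      · intro X _ hX
        rw [norm_trial, if_neg hX]
        simp
    rw [h1, ← ENNReal.ofReal_sum_of_nonneg]
    · congr 1
      rw [← sum_mul, sum_comm, mul_comm, mul_sum]
      refine sum_congr rfl fun i _ => ?_
      rw [sum_comm, mul_sum]
    · intro X _
      exact mul_nonneg (sum_nonneg fun i _ => sum_nonneg fun j _ => ENNReal.toReal_nonneg)
        (by positivity)
  have hpot2 : ∑ i : Fin N, ∑ j ∈ univ.filter (fun j => i < j),
        ((Alw v N).card : ℝ)⁻¹ * ∑ X ∈ Alw v N, (v (X i) (X j)).toReal ≤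
      N * (N - 1) * (w / 2) / ((Fintype.card V : ℝ) - (N - 1) * b) := by
    calc _ ≤ ∑ i : Fin N, ∑ j ∈ univ.filter (fun j => i < j),
          w / ((Fintype.card V : ℝ) - (N - 1) * b) * 1 := by
          refine sum_le_sum fun i _ => sum_le_sum fun j hj => ?_
          rw [mem_filter] at hj
          rw [mul_one]
          exact pair_trial hw hv h i j hj.2.ne hD
      _ = _ := by
          simp only [← mul_sum]
          rw [card_pairs]
          ring
  unfold energy
  rw [hpot, ← ENNReal.ofReal_add (kinetic_nonneg hG.nonneg _)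
    (sum_nonneg fun i _ => sum_nonneg fun j _ => mul_nonneg (by positivity)
      (sum_nonneg fun X _ => ENNReal.toReal_nonneg))]
  refine ENNReal.ofReal_le_ofReal ?_
  calc _ ≤ N * (N - 1) * (b * τ) / ((Fintype.card V : ℝ) - (N - 1) * b) +
        N * (N - 1) * (w / 2) / ((Fintype.card V : ℝ) - (N - 1) * b) := add_le_add hkin hpot2
    _ = _ := by ring

end Pool.Agent.U240.BG
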